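import Mathlib

set_option autoImplicit false

/-!
# Symmetric sub-Markovian semigroups on `ℝ^d`: definitions

Elements of the spaces `L^p(ℝ^d)` are represented by functions, and identities between them hold
almost everywhere.
-/

namespace Pool.Agent.R243.FB

open Filter Topology MeasureTheory Set
open scoped ENNReal NNReal

/-- Lebesgue measure on `ℝ^d` -/
noncomputable def leb (d : ℕ) : Measure (Fin d → ℝ) := volume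

/-- `f ∈ L^p(ℝ^d)` -/
def InL {d : ℕ} (p : ℝ≥0∞) (f : (Fin d → ℝ) → ℝ) : Prop := MemLp f p (leb d)

/-- `‖f‖_p` -/
noncomputable def nrm {d : ℕ} (p : ℝ≥0∞) (f : (Fin d → ℝ) → ℝ) : ℝ≥0∞ := eLpNorm f p (leb d)

/-- equality almost everywhere -/
def AeEq {d : ℕ} (f g : (Fin d → ℝ) → ℝ) : Prop := ∀ᵐ x ∂leb d, f x = g x

/-- A symmetric sub-Markovian semigroup on `ℝ^d`: linear operators `U(t)`, `t ≥ 0`, on all the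
spaces `L^p(ℝ^d)`, `1 ≤ p ≤ ∞`, with the semigroup property, positive, contractive on `L¹` and on
`L^∞`, strongly continuous on `L^p` for `1 ≤ p < ∞`, self-adjoint on `L²`. -/
structure SymSubMarkov (d : ℕ) where
  U : ℝ≥0 → ((Fin d → ℝ) → ℝ) → ((Fin d → ℝ) → ℝ)
  congr : ∀ t f g, AeEq f g → AeEq (U t f) (U t g)
  mem : ∀ p, 1 ≤ p → ∀ t f, InL p f → InL p (U t f)
  add : ∀ p, 1 ≤ p → ∀ t f g, InL p f → InL p g →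
    AeEq (U t (fun x => f x + g x)) (fun x => U t f x + U t g x)
  smul : ∀ p, 1 ≤ p → ∀ t (c : ℝ) f, InL p f → AeEq (U t (fun x => c * f x)) (fun x => c * U t f x)
  zero : ∀ p, 1 ≤ p → ∀ f, InL p f → AeEq (U 0 f) f
  semigroup : ∀ p, 1 ≤ p → ∀ s t f, InL p f → AeEq (U (s + t) f) (U s (U t f))
  nonneg : ∀ p, 1 ≤ p → ∀ t f, InL p f → (∀ᵐ x ∂leb d, 0 ≤ f x) → ∀ᵐ x ∂leb d, 0 ≤ U t f x
  contr_one : ∀ t f, InL 1 f → nrm 1 (U t f) ≤ nrm 1 f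
  contr_top : ∀ t f, InL ⊤ f → nrm ⊤ (U t f) ≤ nrm ⊤ f
  cont : ∀ p, 1 ≤ p → p ≠ ⊤ → ∀ f, InL p f → ∀ t₀ : ℝ≥0,
    Tendsto (fun t => nrm p (fun x => U t f x - U t₀ f x)) (𝓝 t₀) (𝓝 0)
  symm : ∀ t f g, InL 2 f → InL 2 g → ∫ x, U t f x * g x ∂leb d = ∫ x, f x * U t g x ∂leb d

/-- `g ∈ D(T)` and `T g = h`, where `T` is the generator on `L¹`:
`(U(t) g - g)/t → h` in `L¹` as `t ↘ 0`. -/
def IsGen {d : ℕ} (S : SymSubMarkov d) (g h : (Fin d → ℝ) → ℝ) : Prop :=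
  InL 1 g ∧ InL 1 h ∧
    Tendsto (fun t : ℝ≥0 => nrm 1 (fun x => (t:ℝ)⁻¹ * (S.U t g x - g x) - h x)) (𝓝[>] 0) (𝓝 0)

/-- `V` is `T`-bounded in `L¹`: `V g ∈ L¹` for every `g ∈ D(T)` -/
def TBounded {d : ℕ} (S : SymSubMarkov d) (V : (Fin d → ℝ) → ℝ) : Prop :=
  ∀ g h, IsGen S g h → InL 1 (fun x => V x * g x)

/-- `W` represents `V (λ - T)^{-1}` on `L¹`: for every `f ∈ L¹` there is `g ∈ D(T)` with
`(λ - T) g = f` and `W f = V g`. -/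
def IsVRes {d : ℕ} (S : SymSubMarkov d) (V : (Fin d → ℝ) → ℝ) (lam : ℝ)
    (W : ((Fin d → ℝ) → ℝ) → ((Fin d → ℝ) → ℝ)) : Prop :=
  ∀ f, InL 1 f → ∃ g, IsGen S g (fun x => lam * g x - f x) ∧ AeEq (W f) (fun x => V x * g x)

/-- the operator norm on `L¹` -/
noncomputable def opN {d : ℕ} (A : ((Fin d → ℝ) → ℝ) → ((Fin d → ℝ) → ℝ)) : ℝ≥0∞ :=
  sInf {c : ℝ≥0∞ | ∀ f, InL 1 f → nrm 1 (A f) ≤ c * nrm 1 f}

/-- the spectral radius on `L¹`, by Gelfand's formula `lim_n ‖A^n‖^{1/n}` -/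
noncomputable def specRadius {d : ℕ} (A : ((Fin d → ℝ) → ℝ) → ((Fin d → ℝ) → ℝ)) : ℝ≥0∞ :=
  limsup (fun n : ℕ => opN (A^[n]) ^ (1 / (n:ℝ))) atTop

/-- `δ` is the limit of `r(V (λ - T)^{-1})` as `λ → ∞` -/
def IsDelta {d : ℕ} (S : SymSubMarkov d) (V : (Fin d → ℝ) → ℝ) (δ : ℝ≥0) : Prop :=
  ∃ W : ℝ → ((Fin d → ℝ) → ℝ) → ((Fin d → ℝ) → ℝ), (∀ lam : ℝ, 0 < lam → IsVRes S V lam (W lam)) ∧
    Tendsto (fun lam : ℝ => specRadius (W lam)) atTop (𝓝 (δ : ℝ≥0∞))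

/-- the closed form `q(φ) = ‖(-T₂)^{1/2} φ‖²` on `L²`, with the value `∞` outside `D(q)`:
`q(φ) = sup_{t > 0} t^{-1} ⟨φ - U(t) φ, φ⟩` -/
noncomputable def form {d : ℕ} (S : SymSubMarkov d) (φ : (Fin d → ℝ) → ℝ) : ℝ≥0∞ :=
  ⨆ t : ℝ≥0, ⨆ _ : 0 < t, ENNReal.ofReal ((t:ℝ)⁻¹ * ∫ x, (φ x - S.U t φ x) * φ x ∂leb d)

/-- the form-bound `β` of `V` with respect to `-T` -/
noncomputable def formBound {d : ℕ} (S : SymSubMarkov d) (V : (Fin d → ℝ) → ℝ) : ℝ≥0∞ :=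
  sInf {a : ℝ≥0∞ | a ≠ ⊤ ∧ ∃ b : ℝ≥0, ∀ φ, InL 2 φ → form S φ ≠ ⊤ →
    ∫⁻ x, ENNReal.ofReal (V x * φ x ^ 2) ∂leb d ≤
      a * form S φ + b * ∫⁻ x, ENNReal.ofReal (φ x ^ 2) ∂leb d}

end Pool.Agent.R243.FB
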