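import Mathlib

set_option autoImplicit false

/-!
# Multiplication and dilation operators on `L^p(ℝ^d)`
-/

namespace Pool.Agent.R243.FB

open Filter Topology MeasureTheory Set
open scoped ENNReal NNReal

/-- `ℝ^d` -/
abbrev X (d : ℕ) := Fin d → ℝ

/-- real `L^p(ℝ^d)` -/
noncomputable abbrev L (d : ℕ) (p : ℝ≥0∞) := Lp ℝ p (volume : Measure (X d))

/-- bounded measurable functions -/
structure Mlt (d : ℕ) where
  f : X d → ℝ
  C : ℝ
  meas : Measurable f
  nonneg : 0 ≤ C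
  bd : ∀ x, |f x| ≤ C

theorem mul_memLp {d : ℕ} {p : ℝ≥0∞} (m : Mlt d) {f : X d → ℝ} (hf : MemLp f p volume) :
    MemLp (fun x => m.f x * f x) p volume := by
  refine MemLp.of_le_mul (c := m.C) hf (m.meas.aestronglyMeasurable.mul hf.1)
    (Eventually.of_forall fun x => ?_)
  rw [norm_mul]
  exact mul_le_mul_of_nonneg_right (m.bd x) (norm_nonneg _)

theorem mul_eLpNorm_le {d : ℕ} {p : ℝ≥0∞} {m : X d → ℝ} {C : ℝ} (hC : ∀ x, |m x| ≤ C)
    (f : X d → ℝ) : eLpNorm (fun x => m x * f x) p volume ≤ ENNReal.ofReal C * eLpNorm f p volume := by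
  refine eLpNorm_le_mul_eLpNorm_of_ae_le_mul (Eventually.of_forall fun x => ?_) p
  rw [norm_mul]
  exact mul_le_mul_of_nonneg_right (hC x) (norm_nonneg _)

/-- multiplication operator -/
noncomputable def mulOp {d : ℕ} (p : ℝ≥0∞) [Fact (1 ≤ p)] (m : Mlt d) : L d p →L[ℝ] L d p :=
  LinearMap.mkContinuous
    { toFun := fun f => (mul_memLp m (Lp.memLp f)).toLp _
      map_add' := by
        intro f g
        ext1
        filter_upwards [MemLp.coeFn_toLp (mul_memLp m (Lp.memLp (f + g))),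
          Lp.coeFn_add ((mul_memLp m (Lp.memLp f)).toLp _) ((mul_memLp m (Lp.memLp g)).toLp _),
          MemLp.coeFn_toLp (mul_memLp m (Lp.memLp f)), MemLp.coeFn_toLp (mul_memLp m (Lp.memLp g)),
          Lp.coeFn_add f g] with x h1 h2 h3 h4 h5
        rw [h1, h2, Pi.add_apply, h3, h4, h5, Pi.add_apply]
        ring
      map_smul' := by
        intro c f
        ext1
        filter_upwards [MemLp.coeFn_toLp (mul_memLp m (Lp.memLp (c • f))),
          Lp.coeFn_smul c ((mul_memLp m (Lp.memLp f)).toLp _),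
          MemLp.coeFn_toLp (mul_memLp m (Lp.memLp f)), Lp.coeFn_smul c f] with x h1 h2 h3 h4
        rw [h1, RingHom.id_apply, h2, Pi.smul_apply, h3, h4, Pi.smul_apply]
        simp only [smul_eq_mul]
        ring }
    m.C (by
      intro f
      simp only [LinearMap.coe_mk, AddHom.coe_mk]
      rw [Lp.norm_toLp, Lp.norm_def]
      have h1 := mul_eLpNorm_le (p := p) m.bd f
      have h2 := ENNReal.toReal_mono (ENNReal.mul_ne_top ENNReal.ofReal_ne_top (Lp.eLpNorm_ne_top f)) h1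
      rw [ENNReal.toReal_mul, ENNReal.toReal_ofReal m.nonneg] at h2
      exact h2)

theorem mulOp_coe {d : ℕ} (p : ℝ≥0∞) [Fact (1 ≤ p)] (m : Mlt d) (f : L d p) :
    mulOp p m f =ᵐ[volume] fun x => m.f x * f x :=
  MemLp.coeFn_toLp (mul_memLp m (Lp.memLp f))

theorem mulOp_norm_le {d : ℕ} (p : ℝ≥0∞) [Fact (1 ≤ p)] (m : Mlt d) {C : ℝ} (h0 : 0 ≤ C)
    (hC : ∀ x, |m.f x| ≤ C) : ‖mulOp p m‖ ≤ C := by
  refine ContinuousLinearMap.opNorm_le_bound _ h0 fun f => ?_
  rw [Lp.norm_def, Lp.norm_def, eLpNorm_congr_ae (mulOp_coe p m f)]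
  have h1 := mul_eLpNorm_le (p := p) hC f
  have h2 := ENNReal.toReal_mono (ENNReal.mul_ne_top ENNReal.ofReal_ne_top (Lp.eLpNorm_ne_top f)) h1
  rw [ENNReal.toReal_mul, ENNReal.toReal_ofReal h0] at h2
  exact h2

theorem mulOp_comp {d : ℕ} (p : ℝ≥0∞) [Fact (1 ≤ p)] {m n k : Mlt d} (h : ∀ x, m.f x * n.f x = k.f x) :
    (mulOp p m).comp (mulOp p n) = mulOp p k := by
  ext1 f
  ext1
  rw [ContinuousLinearMap.comp_apply]
  filter_upwards [mulOp_coe p m (mulOp p n f), mulOp_coe p n f, mulOp_coe p k f] with x h1 h2 h3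
  rw [h1, h2, h3, ← h]
  ring

theorem mulOp_add {d : ℕ} (p : ℝ≥0∞) [Fact (1 ≤ p)] {m n k : Mlt d} (h : ∀ x, m.f x + n.f x = k.f x) :
    mulOp p m + mulOp p n = mulOp p k := by
  ext1 f
  ext1
  rw [add_apply]
  filter_upwards [Lp.coeFn_add (mulOp p m f) (mulOp p n f), mulOp_coe p m f, mulOp_coe p n f,
    mulOp_coe p k f] with x h1 h2 h3 h4
  rw [h1, Pi.add_apply, h2, h3, h4, ← h]
  ring

theorem mulOp_smul {d : ℕ} (p : ℝ≥0∞) [Fact (1 ≤ p)] {m k : Mlt d} {c : ℝ}
    (h : ∀ x, c * m.f x = k.f x) : c • mulOp p m = mulOp p k := by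
  ext1 f
  ext1
  rw [smul_apply]
  filter_upwards [Lp.coeFn_smul c (mulOp p m f), mulOp_coe p m f, mulOp_coe p k f] with x h1 h2 h3
  rw [h1, Pi.smul_apply, h2, h3, ← h, smul_eq_mul]
  ring

theorem mulOp_one {d : ℕ} (p : ℝ≥0∞) [Fact (1 ≤ p)] {m : Mlt d} (h : ∀ x, m.f x = 1) :
    mulOp p m = ContinuousLinearMap.id ℝ _ := by
  ext1 f
  ext1
  filter_upwards [mulOp_coe p m f] with x h1
  rw [h1, h, one_mul, ContinuousLinearMap.id_apply]

theorem mulOp_zero {d : ℕ} (p : ℝ≥0∞) [Fact (1 ≤ p)] {m : Mlt d} (h : ∀ x, m.f x = 0) :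
    mulOp p m = 0 := by
  ext1 f
  ext1
  filter_upwards [mulOp_coe p m f, Lp.coeFn_zero ℝ p (volume : Measure (X d))] with x h1 h2
  rw [h1, h, zero_mul, zero_apply, h2, Pi.zero_apply]

/-! ### dilations -/

theorem dil_memLp {d : ℕ} {p : ℝ≥0∞} {c : ℝ} (hc : c ≠ 0) {f : X d → ℝ} (hf : MemLp f p volume) :
    MemLp (fun x => f (c • x)) p volume := by
  have h1 : Measure.map (fun x : X d => c • x) volume =
      ENNReal.ofReal |(c ^ Module.finrank ℝ (X d))⁻¹| • volume :=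
    Measure.map_addHaar_smul volume hc
  have h2 : MemLp f p (Measure.map (fun x : X d => c • x) volume) := by
    rw [h1]
    exact hf.smul_measure ENNReal.ofReal_ne_top
  exact h2.comp_of_map (measurable_const_smul c).aemeasurable

theorem dil_eLpNorm {d : ℕ} {p : ℝ≥0∞} {c : ℝ} (hc : c ≠ 0) {f : X d → ℝ} (hf : MemLp f p volume) :
    eLpNorm (fun x => f (c • x)) p volume =
      ENNReal.ofReal |(c ^ d)⁻¹| ^ (1 / p).toReal * eLpNorm f p volume := by
  have h1 : Measure.map (fun x : X d => c • x) volume =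
      ENNReal.ofReal |(c ^ Module.finrank ℝ (X d))⁻¹| • volume :=
    Measure.map_addHaar_smul volume hc
  rw [Module.finrank_fin_fun] at h1
  have hf2 : AEStronglyMeasurable f (Measure.map (fun x : X d => c • x) volume) := by
    rw [h1]
    exact hf.1.smul_measure _
  have h3 := eLpNorm_map_measure (p := p) hf2 (measurable_const_smul c).aemeasurable
  rw [h1, eLpNorm_smul_measure_of_ne_zero, smul_eq_mul] at h3
  · exact h3.symm
  · simp [hc]

theorem qmp {d : ℕ} {c : ℝ} (hc : c ≠ 0) :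
    Measure.QuasiMeasurePreserving (fun x : X d => c • x) volume volume := by
  refine ⟨measurable_const_smul c, ?_⟩
  have h1 : Measure.map (fun x : X d => c • x) volume =
      ENNReal.ofReal |(c ^ Module.finrank ℝ (X d))⁻¹| • volume :=
    Measure.map_addHaar_smul volume hc
  rw [h1]
  exact Measure.smul_absolutelyContinuous

/-- dilation operator `f ↦ f(c ·)` -/
noncomputable def dil {d : ℕ} (p : ℝ≥0∞) [Fact (1 ≤ p)] {c : ℝ} (hc : c ≠ 0) : L d p →L[ℝ] L d p :=
  LinearMap.mkContinuous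
    { toFun := fun f => (dil_memLp hc (Lp.memLp f)).toLp _
      map_add' := by
        intro f g
        ext1
        filter_upwards [MemLp.coeFn_toLp (dil_memLp hc (Lp.memLp (f + g))),
          Lp.coeFn_add ((dil_memLp hc (Lp.memLp f)).toLp _) ((dil_memLp hc (Lp.memLp g)).toLp _),
          MemLp.coeFn_toLp (dil_memLp hc (Lp.memLp f)), MemLp.coeFn_toLp (dil_memLp hc (Lp.memLp g)),
          (qmp hc).ae_eq (Lp.coeFn_add f g)] with x h1 h2 h3 h4 h5
        simp only [Function.comp_apply] at h5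
        rw [h1, h2, Pi.add_apply, h3, h4, h5, Pi.add_apply]
      map_smul' := by
        intro r f
        ext1
        filter_upwards [MemLp.coeFn_toLp (dil_memLp hc (Lp.memLp (r • f))),
          Lp.coeFn_smul r ((dil_memLp hc (Lp.memLp f)).toLp _),
          MemLp.coeFn_toLp (dil_memLp hc (Lp.memLp f)), (qmp hc).ae_eq (Lp.coeFn_smul r f)]
          with x h1 h2 h3 h4
        simp only [Function.comp_apply] at h4
        rw [h1, RingHom.id_apply, h2, Pi.smul_apply, h3, h4, Pi.smul_apply] }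
    (|(c ^ d)⁻¹| ^ (1 / p).toReal) (by
      intro f
      simp only [LinearMap.coe_mk, AddHom.coe_mk]
      rw [Lp.norm_toLp, Lp.norm_def, dil_eLpNorm hc (Lp.memLp f), ENNReal.toReal_mul,
        ← ENNReal.toReal_rpow, ENNReal.toReal_ofReal (abs_nonneg _)])

theorem dil_coe {d : ℕ} (p : ℝ≥0∞) [Fact (1 ≤ p)] {c : ℝ} (hc : c ≠ 0) (f : L d p) :
    dil p hc f =ᵐ[volume] fun x => f (c • x) :=
  MemLp.coeFn_toLp (dil_memLp hc (Lp.memLp f))

theorem dil_norm_le {d : ℕ} (p : ℝ≥0∞) [Fact (1 ≤ p)] {c : ℝ} (hc : c ≠ 0) :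
    ‖(dil p hc : L d p →L[ℝ] L d p)‖ ≤ |(c ^ d)⁻¹| ^ (1 / p).toReal :=
  LinearMap.mkContinuous_norm_le _ (by positivity) _

theorem dil_mulOp {d : ℕ} (p : ℝ≥0∞) [Fact (1 ≤ p)] {c : ℝ} (hc : c ≠ 0) {m : Mlt d}
    (h : ∀ x, m.f (c • x) = m.f x) : (dil p hc).comp (mulOp p m) = (mulOp p m).comp (dil p hc) := by
  ext1 f
  ext1
  rw [ContinuousLinearMap.comp_apply, ContinuousLinearMap.comp_apply]
  filter_upwards [dil_coe p hc (mulOp p m f), (qmp hc).ae_eq (mulOp_coe p m f),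
    mulOp_coe p m (dil p hc f), dil_coe p hc f] with x h1 h2 h3 h4
  simp only [Function.comp_apply] at h2
  rw [h1, h2, h3, h4, h]

end Pool.Agent.R243.FB
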