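import Mathlib
import Pool.Agent.R243.FB.Ops

set_option autoImplicit false

namespace Pool.Agent.R243.FB

open Filter Topology MeasureTheory Set
open scoped ENNReal NNReal

variable {d : ℕ}

/-- the dilation factor, `γ^d = 2` -/
noncomputable def gam (d : ℕ) : ℝ := (2:ℝ) ^ (1 / (d:ℝ))

theorem gam_pos (d : ℕ) : 0 < gam d := by
  unfold gam
  positivity

theorem gam_ne (d : ℕ) : gam d ≠ 0 := (gam_pos d).ne'

theorem gam_inv_ne (d : ℕ) : (gam d)⁻¹ ≠ 0 := inv_ne_zero (gam_ne d)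

theorem gam_pow (hd : d ≠ 0) : gam d ^ d = 2 := by
  unfold gam
  rw [← Real.rpow_natCast, ← Real.rpow_mul (by norm_num), one_div_mul_cancel (by exact_mod_cast hd),
    Real.rpow_one]

/-- the averaging operator `P f(x) = (2/3) f(γx) + (1/3) f(x/γ)` -/
noncomputable def P (d : ℕ) (p : ℝ≥0∞) [Fact (1 ≤ p)] : L d p →L[ℝ] L d p :=
  (2 / 3 : ℝ) • dil p (gam_ne d) + (1 / 3 : ℝ) • dil p (gam_inv_ne d)

theorem P_coe (p : ℝ≥0∞) [Fact (1 ≤ p)] (f : L d p) :
    P d p f =ᵐ[volume] fun x => 2 / 3 * f (gam d • x) + 1 / 3 * f ((gam d)⁻¹ • x) := by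
  unfold P
  rw [add_apply, smul_apply, smul_apply]
  filter_upwards [Lp.coeFn_add ((2 / 3 : ℝ) • dil p (gam_ne d) f) ((1 / 3 : ℝ) • dil p (gam_inv_ne d) f),
    Lp.coeFn_smul (2 / 3 : ℝ) (dil p (gam_ne d) f), Lp.coeFn_smul (1 / 3 : ℝ) (dil p (gam_inv_ne d) f),
    dil_coe p (gam_ne d) f, dil_coe p (gam_inv_ne d) f] with x h1 h2 h3 h4 h5
  rw [h1, Pi.add_apply, h2, h3, Pi.smul_apply, Pi.smul_apply, h4, h5]
  rfl

theorem P_norm_aux (hd : d ≠ 0) (p : ℝ≥0∞) [Fact (1 ≤ p)] :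
    ‖P d p‖ ≤ 2 / 3 * (2⁻¹ : ℝ) ^ (1 / p).toReal + 1 / 3 * (2:ℝ) ^ (1 / p).toReal := by
  unfold P
  have h1 := dil_norm_le (d := d) p (gam_ne d)
  have h2 := dil_norm_le (d := d) p (gam_inv_ne d)
  rw [gam_pow hd] at h1
  rw [inv_pow, gam_pow hd, inv_inv] at h2
  rw [abs_of_pos (by norm_num)] at h1 h2
  refine (norm_add_le _ _).trans ?_
  rw [norm_smul, norm_smul, Real.norm_of_nonneg (by norm_num), Real.norm_of_nonneg (by norm_num)]
  gcongr

theorem P_norm_le (hd : d ≠ 0) (p : ℝ≥0∞) [hp : Fact (1 ≤ p)] : ‖P d p‖ ≤ 1 := by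
  refine (P_norm_aux hd p).trans ?_
  set s := (1 / p).toReal with hs
  have hs0 : 0 ≤ s := ENNReal.toReal_nonneg
  have hs1 : s ≤ 1 := by
    rw [hs]
    have : 1 / p ≤ 1 := by
      rw [one_div]
      exact ENNReal.inv_le_one.2 hp.out
    calc (1 / p).toReal ≤ (1 : ℝ≥0∞).toReal := ENNReal.toReal_mono ENNReal.one_ne_top this
      _ = 1 := by simp
  have h1 : (1:ℝ) ≤ 2 ^ s := Real.one_le_rpow (by norm_num) hs0
  have h2 : (2:ℝ) ^ s ≤ 2 := by
    calc (2:ℝ) ^ s ≤ 2 ^ (1:ℝ) := Real.rpow_le_rpow_of_exponent_le (by norm_num) hs1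
      _ = 2 := Real.rpow_one 2
  rw [Real.inv_rpow (by norm_num)]
  set y := (2:ℝ) ^ s with hy
  have hy0 : 0 < y := by linarith
  have h3 : (2 / 3 * y⁻¹ + 1 / 3 * y) * y ≤ 1 * y := by
    have : y⁻¹ * y = 1 := inv_mul_cancel₀ hy0.ne'
    nlinarith
  exact le_of_mul_le_mul_right h3 hy0

/-- the `L²` bound -/
noncomputable def rho : ℝ := 2 * Real.sqrt 2 / 3

theorem rho_lt_one : rho < 1 := by
  unfold rho
  have h : Real.sqrt 2 < 3 / 2 := by
    rw [Real.sqrt_lt' (by norm_num)]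
    norm_num
  linarith

theorem rho_nonneg : 0 ≤ rho := by
  unfold rho
  positivity

theorem P_norm_two (hd : d ≠ 0) : ‖P d 2‖ ≤ rho := by
  refine (P_norm_aux hd 2).trans ?_
  have h1 : (1 / (2:ℝ≥0∞)).toReal = 1 / 2 := by simp
  rw [h1, Real.inv_rpow (by norm_num), ← Real.sqrt_eq_rpow]
  unfold rho
  have h2 : Real.sqrt 2 * Real.sqrt 2 = 2 := Real.mul_self_sqrt (by norm_num)
  have h3 : 0 < Real.sqrt 2 := by positivity
  have h4 : (Real.sqrt 2)⁻¹ = Real.sqrt 2 / 2 := by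
    field_simp
    linarith
  rw [h4]
  linarith

theorem P_mulOp (p : ℝ≥0∞) [Fact (1 ≤ p)] {m : Mlt d} (h : ∀ x, m.f (gam d • x) = m.f x) :
    P d p * mulOp p m = mulOp p m * P d p := by
  have h' : ∀ x, m.f ((gam d)⁻¹ • x) = m.f x := by
    intro x
    rw [← h ((gam d)⁻¹ • x), smul_inv_smul₀ (gam_ne d)]
  have h1 := dil_mulOp p (gam_ne d) h
  have h2 := dil_mulOp p (gam_inv_ne d) h'
  unfold P
  rw [add_mul, mul_add, smul_mul_assoc, smul_mul_assoc, mul_smul_comm, mul_smul_comm]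
  congr 2

theorem Ppow_mulOp (p : ℝ≥0∞) [Fact (1 ≤ p)] {m : Mlt d} (h : ∀ x, m.f (gam d • x) = m.f x) (n : ℕ) :
    (P d p) ^ n * mulOp p m = mulOp p m * (P d p) ^ n := by
  have h1 : Commute (P d p) (mulOp p m) := P_mulOp p h
  exact h1.pow_left n

theorem Ppow_norm_le (hd : d ≠ 0) (p : ℝ≥0∞) [Fact (1 ≤ p)] (n : ℕ) : ‖(P d p) ^ n‖ ≤ 1 := by
  rcases Nat.eq_zero_or_pos n with h | h
  · subst h
    rw [pow_zero]
    exact ContinuousLinearMap.norm_id_le
  · refine (norm_pow_le' _ h).trans ?_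
    exact pow_le_one₀ (norm_nonneg _) (P_norm_le hd p)

/-- compatibility of `P` on different `L^p` -/
theorem P_compat (p q : ℝ≥0∞) [Fact (1 ≤ p)] [Fact (1 ≤ q)] {f : L d p} {g : L d q}
    (h : f =ᵐ[volume] g) : P d p f =ᵐ[volume] P d q g := by
  filter_upwards [P_coe p f, P_coe q g, (qmp (gam_ne d)).ae_eq h, (qmp (gam_inv_ne d)).ae_eq h]
    with x h1 h2 h3 h4
  simp only [Function.comp_apply] at h3 h4
  rw [h1, h2, h3, h4]

theorem Ppow_compat (p q : ℝ≥0∞) [Fact (1 ≤ p)] [Fact (1 ≤ q)] {f : L d p} {g : L d q}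
    (h : f =ᵐ[volume] g) (n : ℕ) : ((P d p) ^ n) f =ᵐ[volume] ((P d q) ^ n) g := by
  induction n with
  | zero => exact h
  | succ n ih =>
    rw [pow_succ', pow_succ']
    exact P_compat p q ih

theorem P_nonneg (p : ℝ≥0∞) [Fact (1 ≤ p)] {f : L d p} (h : 0 ≤ f) : 0 ≤ P d p f := by
  rw [← Lp.coeFn_nonneg] at h ⊢
  filter_upwards [P_coe p f, (qmp (gam_ne d)).ae h, (qmp (gam_inv_ne d)).ae h] with x h1 h2 h3
  rw [h1]
  simp only [Pi.zero_apply] at h2 h3 ⊢
  linarith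

theorem Ppow_nonneg (p : ℝ≥0∞) [Fact (1 ≤ p)] {f : L d p} (h : 0 ≤ f) (n : ℕ) :
    0 ≤ ((P d p) ^ n) f := by
  induction n with
  | zero => exact h
  | succ n ih =>
    rw [pow_succ']
    exact P_nonneg p ih

/-- `∫ P f = ∫ f` -/
theorem P_integral (hd : d ≠ 0) (f : L d 1) : ∫ x, P d 1 f x = ∫ x, f x := by
  have hf : Integrable f volume := L1.integrable_coeFn f
  have h1 : Integrable (fun x : X d => f (gam d • x)) volume :=
    memLp_one_iff_integrable.1 (dil_memLp (gam_ne d) (Lp.memLp f))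
  have h2 : Integrable (fun x : X d => f ((gam d)⁻¹ • x)) volume :=
    memLp_one_iff_integrable.1 (dil_memLp (gam_inv_ne d) (Lp.memLp f))
  rw [integral_congr_ae (P_coe 1 f), integral_add (h1.const_mul _) (h2.const_mul _),
    integral_const_mul, integral_const_mul, Measure.integral_comp_smul, Measure.integral_comp_smul,
    Module.finrank_fin_fun, inv_pow, gam_pow hd, inv_inv]
  simp only [smul_eq_mul]
  rw [abs_of_pos (by norm_num), abs_of_pos (by norm_num)]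
  ring

theorem rin (a b : ℝ) : inner ℝ a b = a * b := by
  rw [RCLike.inner_apply, conj_trivial, mul_comm]

/-- self-adjointness of `P` on `L²` -/
theorem P_symm (hd : d ≠ 0) (f g : L d 2) : inner ℝ (P d 2 f) g = inner ℝ f (P d 2 g) := by
  rw [L2.inner_def, L2.inner_def]
  have key : ∀ (c : ℝ) (hc : c ≠ 0) (u w : L d 2), ∫ x : X d, u (c • x) * w x =
      |(c ^ d)⁻¹| * ∫ x : X d, u x * w (c⁻¹ • x) := by
    intro c hc u w
    have h1 := Measure.integral_comp_smul (volume : Measure (X d)) (fun x => u x * w (c⁻¹ • x)) c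
    rw [Module.finrank_fin_fun, smul_eq_mul] at h1
    rw [← h1]
    refine integral_congr_ae (Eventually.of_forall fun x => ?_)
    beta_reduce
    rw [inv_smul_smul₀ hc]
  have hint : ∀ (c : ℝ) (hc : c ≠ 0) (u w : L d 2), Integrable (fun x : X d => u (c • x) * w x) volume := by
    intro c hc u w
    have h1 := dil_memLp hc (Lp.memLp u)
    exact MemLp.integrable_mul h1 (Lp.memLp w)
  have hint' : ∀ (c : ℝ) (hc : c ≠ 0) (u w : L d 2), Integrable (fun x : X d => w x * u (c • x)) volume := by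
    intro c hc u w
    refine (hint c hc u w).congr (Eventually.of_forall fun x => ?_)
    exact mul_comm _ _
  have hl : ∫ x, inner ℝ (P d 2 f x) (g x) = 2 / 3 * (∫ x : X d, f (gam d • x) * g x) +
      1 / 3 * (∫ x : X d, f ((gam d)⁻¹ • x) * g x) := by
    rw [← integral_const_mul, ← integral_const_mul, ← integral_add]
    · refine integral_congr_ae ?_
      filter_upwards [P_coe 2 f] with x hx
      rw [hx]
      simp only [rin]
      ring
    · exact (hint _ (gam_ne d) f g).const_mul _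
    · exact (hint _ (gam_inv_ne d) f g).const_mul _
  have hr : ∫ x, inner ℝ (f x) (P d 2 g x) = 2 / 3 * (∫ x : X d, f x * g (gam d • x)) +
      1 / 3 * (∫ x : X d, f x * g ((gam d)⁻¹ • x)) := by
    rw [← integral_const_mul, ← integral_const_mul, ← integral_add]
    · refine integral_congr_ae ?_
      filter_upwards [P_coe 2 g] with x hx
      rw [hx]
      simp only [rin]
      ring
    · exact (hint' _ (gam_ne d) g f).const_mul _
    · exact (hint' _ (gam_inv_ne d) g f).const_mul _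
  rw [hl, hr, key _ (gam_ne d), key _ (gam_inv_ne d), inv_inv, inv_pow, gam_pow hd, inv_inv,
    abs_of_pos (show (0:ℝ) < 2⁻¹ by norm_num), abs_of_pos (show (0:ℝ) < 2 by norm_num)]
  ring

theorem Ppow_symm (hd : d ≠ 0) (n : ℕ) (f g : L d 2) :
    inner ℝ (((P d 2) ^ n) f) g = inner ℝ f (((P d 2) ^ n) g) := by
  induction n generalizing f g with
  | zero => rfl
  | succ n ih =>
    have h1 : ((P d 2) ^ (n + 1)) f = P d 2 (((P d 2) ^ n) f) := by
      rw [pow_succ']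
      rfl
    have h2 : ((P d 2) ^ (n + 1)) g = ((P d 2) ^ n) (P d 2 g) := by
      rw [pow_succ]
      rfl
    rw [h1, h2, P_symm hd, ih]

theorem mulOp_symm (m : Mlt d) (f g : L d 2) :
    inner ℝ (mulOp 2 m f) g = inner ℝ f (mulOp 2 m g) := by
  rw [L2.inner_def, L2.inner_def]
  refine integral_congr_ae ?_
  filter_upwards [mulOp_coe 2 m f, mulOp_coe 2 m g] with x h1 h2
  rw [h1, h2, rin, rin]
  ring

theorem mulOp_nonneg (p : ℝ≥0∞) [Fact (1 ≤ p)] {m : Mlt d} (hm : ∀ x, 0 ≤ m.f x) {f : L d p}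
    (h : 0 ≤ f) : 0 ≤ mulOp p m f := by
  rw [← Lp.coeFn_nonneg] at h ⊢
  filter_upwards [mulOp_coe p m f, h] with x h1 h2
  rw [h1]
  exact mul_nonneg (hm x) h2

theorem mulOp_compat (p q : ℝ≥0∞) [Fact (1 ≤ p)] [Fact (1 ≤ q)] (m : Mlt d) {f : L d p} {g : L d q}
    (h : f =ᵐ[volume] g) : mulOp p m f =ᵐ[volume] mulOp q m g := by
  filter_upwards [mulOp_coe p m f, mulOp_coe q m g, h] with x h1 h2 h3
  rw [h1, h2, h3]

end Pool.Agent.R243.FB
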