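import Mathlib
import Pool.Agent.R243.FB.Walk

set_option autoImplicit false

namespace Pool.Agent.R243.FB

open Filter Topology MeasureTheory Set
open scoped ENNReal NNReal

variable {d : ℕ}

/-- `d log_2 |x|` -/
noncomputable def lg (x : X d) : ℝ := d * Real.logb 2 ‖x‖

/-- the rate function: dilation invariant, integer valued, `≥ 1` and unbounded -/
noncomputable def rate (x : X d) : ℕ := 1 + ⌊1 / Int.fract (lg x)⌋₊

theorem lg_meas : Measurable (lg : X d → ℝ) := by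
  unfold lg Real.logb
  exact ((Real.measurable_log.comp measurable_norm).div_const _).const_mul _

theorem rate_meas : Measurable (fun x : X d => (rate x : ℝ)) := by
  unfold rate
  have h1 : Measurable (fun x : X d => 1 / Int.fract (lg x)) :=
    measurable_const.div (measurable_fract.comp lg_meas)
  have h2 : Measurable (fun x : X d => ⌊1 / Int.fract (lg x)⌋₊) := Nat.measurable_floor.comp h1
  exact (measurable_of_countable (fun n : ℕ => ((1 + n : ℕ) : ℝ))).comp h2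

theorem one_le_rate (x : X d) : (1:ℝ) ≤ rate x := by
  unfold rate
  push_cast
  have : (0:ℝ) ≤ (⌊1 / Int.fract (lg x)⌋₊ : ℝ) := Nat.cast_nonneg _
  linarith

theorem rate_pos (x : X d) : (0:ℝ) < rate x := lt_of_lt_of_le one_pos (one_le_rate x)

theorem rate_dil (hd : d ≠ 0) (x : X d) : rate (gam d • x) = rate x := by
  by_cases hx : x = 0
  · rw [hx, smul_zero]
  · have hx' : ‖x‖ ≠ 0 := norm_ne_zero_iff.2 hx
    have h1 : lg (gam d • x) = lg x + 1 := by
      unfold lg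
      rw [norm_smul, Real.norm_of_nonneg (gam_pos d).le, Real.logb_mul (gam_ne d) hx']
      unfold gam
      rw [Real.logb_rpow (by norm_num) (by norm_num)]
      have : (d:ℝ) ≠ 0 := by exact_mod_cast hd
      field_simp
      ring
    unfold rate
    rw [h1, Int.fract_add_one]

/-- elementary bound -/
theorem exp_pow_le {s : ℝ} (hs : 0 ≤ s) (n : ℕ) : Real.exp (-2 * s) * (s ^ n / n.factorial) ≤ (1 / 2) ^ n := by
  have h1 := Real.pow_div_factorial_le_exp (x := 2 * s) (by positivity) n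
  have h2 : 0 < Real.exp (-2 * s) := Real.exp_pos _
  have h3 : Real.exp (-2 * s) * Real.exp (2 * s) = 1 := by
    rw [← Real.exp_add]
    simp
  calc Real.exp (-2 * s) * (s ^ n / n.factorial) =
        (1 / 2) ^ n * (Real.exp (-2 * s) * ((2 * s) ^ n / n.factorial)) := by
        rw [mul_pow, one_div, inv_pow]
        field_simp
    _ ≤ (1 / 2) ^ n * (Real.exp (-2 * s) * Real.exp (2 * s)) := by gcongr
    _ = _ := by rw [h3, mul_one]

/-- the multipliers `m_n(t) = e^{-2tv} (tv)^n / n!` -/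
noncomputable def mt (d : ℕ) (n : ℕ) (t : ℝ≥0) : Mlt d where
  f := fun x => Real.exp (-2 * (t * rate x)) * ((t * rate x) ^ n / n.factorial)
  C := (1 / 2) ^ n
  meas := by
    have h := rate_meas (d := d)
    exact (Real.measurable_exp.comp ((h.const_mul _).const_mul _)).mul
      (((h.const_mul _).pow_const n).div_const _)
  nonneg := by positivity
  bd := by
    intro x
    have h0 : (0:ℝ) ≤ t * rate x := by positivity
    rw [abs_of_nonneg (by positivity)]
    exact exp_pow_le h0 n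

theorem mt_nonneg (n : ℕ) (t : ℝ≥0) (x : X d) : 0 ≤ (mt d n t).f x := by
  have h0 : (0:ℝ) ≤ t * rate x := by positivity
  show 0 ≤ Real.exp (-2 * (t * rate x)) * ((t * rate x) ^ n / n.factorial)
  positivity

theorem mt_dil (hd : d ≠ 0) (n : ℕ) (t : ℝ≥0) (x : X d) : (mt d n t).f (gam d • x) = (mt d n t).f x := by
  show Real.exp (-2 * (t * rate (gam d • x))) * ((t * rate (gam d • x)) ^ n / n.factorial) = _
  rw [rate_dil hd]
  rfl

/-- the `n`-th term of the semigroup series -/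
noncomputable def Tn (d : ℕ) (p : ℝ≥0∞) [Fact (1 ≤ p)] (n : ℕ) (t : ℝ≥0) : L d p →L[ℝ] L d p :=
  mulOp p (mt d n t) * (P d p) ^ n

theorem Tn_norm_le (hd : d ≠ 0) (p : ℝ≥0∞) [Fact (1 ≤ p)] (n : ℕ) (t : ℝ≥0) :
    ‖Tn d p n t‖ ≤ (1 / 2) ^ n := by
  unfold Tn
  have h1 := mulOp_norm_le p (mt d n t) (mt d n t).nonneg (mt d n t).bd
  have h2 := Ppow_norm_le hd p n
  calc ‖mulOp p (mt d n t) * (P d p) ^ n‖ ≤ ‖mulOp p (mt d n t)‖ * ‖(P d p) ^ n‖ := norm_mul_le _ _
    _ ≤ (1 / 2) ^ n * 1 := mul_le_mul h1 h2 (norm_nonneg _) (mt d n t).nonneg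
    _ = _ := mul_one _

theorem summable_half : Summable (fun n : ℕ => ((1:ℝ) / 2) ^ n) :=
  summable_geometric_of_lt_one (by norm_num) (by norm_num)

theorem Tn_summable_norm (hd : d ≠ 0) (p : ℝ≥0∞) [Fact (1 ≤ p)] (t : ℝ≥0) :
    Summable (fun n => ‖Tn d p n t‖) :=
  Summable.of_nonneg_of_le (fun _ => norm_nonneg _) (fun n => Tn_norm_le hd p n t) summable_half

/-- the semigroup -/
noncomputable def Ut (d : ℕ) (p : ℝ≥0∞) [Fact (1 ≤ p)] (t : ℝ≥0) : L d p →L[ℝ] L d p :=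
  ∑' n, Tn d p n t

theorem Ut_hasSum (hd : d ≠ 0) (p : ℝ≥0∞) [Fact (1 ≤ p)] (t : ℝ≥0) (f : L d p) :
    HasSum (fun n => Tn d p n t f) (Ut d p t f) := by
  have h1 : HasSum (fun n => Tn d p n t) (Ut d p t) := by
    unfold Ut
    exact (Tn_summable_norm hd p t).of_norm.hasSum
  have h2 : HasSum (fun n => (ContinuousLinearMap.apply ℝ (L d p) f) (Tn d p n t))
      ((ContinuousLinearMap.apply ℝ (L d p) f) (Ut d p t)) := ContinuousLinearMap.hasSum _ h1
  simpa only [ContinuousLinearMap.apply_apply] using h2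

theorem Ut_zero (p : ℝ≥0∞) [Fact (1 ≤ p)] : Ut d p 0 = ContinuousLinearMap.id ℝ _ := by
  unfold Ut
  rw [tsum_eq_single 0]
  · unfold Tn
    rw [pow_zero, mul_one]
    apply mulOp_one
    intro x
    show Real.exp (-2 * (((0:ℝ≥0):ℝ) * rate x)) * ((((0:ℝ≥0):ℝ) * rate x) ^ 0 / Nat.factorial 0) = 1
    simp
  · intro n hn
    unfold Tn
    rw [mulOp_zero, zero_mul]
    intro x
    show Real.exp (-2 * (((0:ℝ≥0):ℝ) * rate x)) * ((((0:ℝ≥0):ℝ) * rate x) ^ n / Nat.factorial n) = 0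
    simp [hn]

theorem mt_add (n : ℕ) (s t : ℝ≥0) (x : X d) :
    ∑ kl ∈ Finset.HasAntidiagonal.antidiagonal n, (mt d kl.1 s).f x * (mt d kl.2 t).f x = (mt d n (s + t)).f x := by
  show ∑ kl ∈ Finset.HasAntidiagonal.antidiagonal n, (Real.exp (-2 * (s * rate x)) * ((s * rate x) ^ kl.1 / (kl.1).factorial)) *
    (Real.exp (-2 * (t * rate x)) * ((t * rate x) ^ kl.2 / (kl.2).factorial)) =
    Real.exp (-2 * (((s + t : ℝ≥0) : ℝ) * rate x)) * ((((s + t : ℝ≥0) : ℝ) * rate x) ^ n / n.factorial)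
  have h1 : ((s + t : ℝ≥0) : ℝ) * rate x = s * rate x + t * rate x := by
    push_cast
    ring
  rw [h1]
  generalize (s:ℝ) * rate x = a
  generalize (t:ℝ) * rate x = b
  have h2 : (a + b) ^ n / n.factorial =
      ∑ kl ∈ Finset.HasAntidiagonal.antidiagonal n, (a ^ kl.1 / (kl.1).factorial) * (b ^ kl.2 / (kl.2).factorial) := by
    rw [(Commute.all a b).add_pow', Finset.sum_div]
    refine Finset.sum_congr rfl fun kl hkl => ?_
    rw [Finset.HasAntidiagonal.mem_antidiagonal] at hkl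
    have h3 : (n.choose kl.1 : ℝ) * kl.1.factorial * kl.2.factorial = n.factorial := by
      have := Nat.add_choose_mul_factorial_mul_factorial kl.1 kl.2
      rw [← Nat.choose_symm_add, hkl] at this
      exact_mod_cast this
    have h4 : (n.factorial : ℝ) ≠ 0 := by exact_mod_cast n.factorial_ne_zero
    have h5 : (kl.1.factorial : ℝ) ≠ 0 := by exact_mod_cast kl.1.factorial_ne_zero
    have h6 : (kl.2.factorial : ℝ) ≠ 0 := by exact_mod_cast kl.2.factorial_ne_zero
    rw [nsmul_eq_mul]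
    rw [div_mul_div_comm, div_eq_div_iff h4 (mul_ne_zero h5 h6), ← h3]
    ring
  rw [h2, Finset.mul_sum]
  refine Finset.sum_congr rfl fun kl _ => ?_
  have h3 : Real.exp (-2 * (a + b)) = Real.exp (-2 * a) * Real.exp (-2 * b) := by
    rw [← Real.exp_add]
    ring_nf
  rw [h3]
  ring

/-- finite sums of multipliers -/
theorem mulOp_sum (p : ℝ≥0∞) [Fact (1 ≤ p)] {ι : Type*} (s : Finset ι) (a : ι → Mlt d) {k : Mlt d}
    (h : ∀ x, ∑ i ∈ s, (a i).f x = k.f x) : ∑ i ∈ s, mulOp p (a i) = mulOp p k := by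
  classical
  induction s using Finset.induction_on generalizing k with
  | empty =>
    rw [Finset.sum_empty]
    symm
    apply mulOp_zero
    intro x
    rw [← h, Finset.sum_empty]
  | insert i s hi ih =>
    rw [Finset.sum_insert hi]
    have k' : ∃ k' : Mlt d, ∀ x, k'.f x = ∑ i ∈ s, (a i).f x := by
      refine ⟨⟨fun x => ∑ i ∈ s, (a i).f x, ∑ i ∈ s, (a i).C,
        Finset.measurable_sum _ fun i _ => (a i).meas, Finset.sum_nonneg fun i _ => (a i).nonneg,
        fun x => ?_⟩, fun x => rfl⟩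
      exact (Finset.abs_sum_le_sum_abs _ _).trans (Finset.sum_le_sum fun i _ => (a i).bd x)
    obtain ⟨k', hk'⟩ := k'
    rw [ih (k := k') (fun x => (hk' x).symm)]
    apply mulOp_add
    intro x
    rw [← h, Finset.sum_insert hi, hk']

/-- product of multipliers -/
noncomputable def Mlt.mul (a b : Mlt d) : Mlt d where
  f := fun x => a.f x * b.f x
  C := a.C * b.C
  meas := a.meas.mul b.meas
  nonneg := mul_nonneg a.nonneg b.nonneg
  bd := fun x => by
    rw [abs_mul]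
    exact mul_le_mul (a.bd x) (b.bd x) (abs_nonneg _) a.nonneg

theorem mulOp_mul (p : ℝ≥0∞) [Fact (1 ≤ p)] (a b : Mlt d) :
    mulOp p a * mulOp p b = mulOp p (a.mul b) := mulOp_comp p fun _ => rfl

theorem Tn_mul (hd : d ≠ 0) (p : ℝ≥0∞) [Fact (1 ≤ p)] (k l : ℕ) (s t : ℝ≥0) :
    Tn d p k s * Tn d p l t = mulOp p ((mt d k s).mul (mt d l t)) * (P d p) ^ (k + l) := by
  unfold Tn
  rw [← mulOp_mul, pow_add]
  calc mulOp p (mt d k s) * (P d p) ^ k * (mulOp p (mt d l t) * (P d p) ^ l) =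
        mulOp p (mt d k s) * ((P d p) ^ k * mulOp p (mt d l t)) * (P d p) ^ l := by
        simp only [mul_assoc]
    _ = _ := by
        rw [Ppow_mulOp p (mt_dil hd l t)]
        simp only [mul_assoc]

theorem Ut_add (hd : d ≠ 0) (p : ℝ≥0∞) [Fact (1 ≤ p)] (s t : ℝ≥0) :
    Ut d p (s + t) = Ut d p s * Ut d p t := by
  unfold Ut
  rw [tsum_mul_tsum_eq_tsum_sum_antidiagonal_of_summable_norm (Tn_summable_norm hd p s)
    (Tn_summable_norm hd p t)]
  refine tsum_congr fun n => ?_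
  have h1 : ∀ kl ∈ Finset.HasAntidiagonal.antidiagonal n, Tn d p kl.1 s * Tn d p kl.2 t =
      mulOp p ((mt d kl.1 s).mul (mt d kl.2 t)) * (P d p) ^ n := by
    intro kl hkl
    rw [Tn_mul hd, Finset.HasAntidiagonal.mem_antidiagonal.1 hkl]
  rw [Finset.sum_congr rfl h1, ← Finset.sum_mul]
  unfold Tn
  congr 1
  symm
  apply mulOp_sum p (Finset.HasAntidiagonal.antidiagonal n) (fun kl : ℕ × ℕ => (mt d kl.1 s).mul (mt d kl.2 t))
  exact fun x => mt_add n s t x

theorem Tn_nonneg (p : ℝ≥0∞) [Fact (1 ≤ p)] (n : ℕ) (t : ℝ≥0) {f : L d p} (h : 0 ≤ f) :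
    0 ≤ Tn d p n t f :=
  mulOp_nonneg p (mt_nonneg n t) (Ppow_nonneg p h n)

theorem Ut_nonneg (hd : d ≠ 0) (p : ℝ≥0∞) [Fact (1 ≤ p)] (t : ℝ≥0) {f : L d p} (h : 0 ≤ f) :
    0 ≤ Ut d p t f := by
  refine ge_of_tendsto' (Ut_hasSum hd p t f) fun s => ?_
  exact Finset.sum_nonneg fun n _ => Tn_nonneg p n t h

theorem Ut_symm (hd : d ≠ 0) (t : ℝ≥0) (f g : L d 2) :
    inner ℝ (Ut d 2 t f) g = inner ℝ f (Ut d 2 t g) := by
  have h1 : HasSum (fun n => inner ℝ g (Tn d 2 n t f)) (inner ℝ g (Ut d 2 t f)) :=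
    (innerSL ℝ g).hasSum (Ut_hasSum hd 2 t f)
  have h2 : HasSum (fun n => inner ℝ f (Tn d 2 n t g)) (inner ℝ f (Ut d 2 t g)) :=
    (innerSL ℝ f).hasSum (Ut_hasSum hd 2 t g)
  have h3 : ∀ n, inner ℝ g (Tn d 2 n t f) = inner ℝ f (Tn d 2 n t g) := by
    intro n
    unfold Tn
    have e1 : (mulOp 2 (mt d n t) * (P d 2) ^ n) f = mulOp 2 (mt d n t) (((P d 2) ^ n) f) := rfl
    have e2 : (mulOp 2 (mt d n t) * (P d 2) ^ n) g = ((P d 2) ^ n) (mulOp 2 (mt d n t) g) := by
      rw [← Ppow_mulOp 2 (mt_dil hd n t)]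
      rfl
    rw [e1, e2, real_inner_comm, mulOp_symm, Ppow_symm hd]
  simp only [h3] at h1
  rw [real_inner_comm]
  exact h1.unique h2

end Pool.Agent.R243.FB
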