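import Mathlib
import Pool.Agent.R243.FB.Semi

set_option autoImplicit false

namespace Pool.Agent.R243.FB

open Filter Topology MeasureTheory Set
open scoped ENNReal NNReal

variable {d : ℕ}

theorem sum_compat (p q : ℝ≥0∞) [Fact (1 ≤ p)] [Fact (1 ≤ q)] (a : ℕ → L d p) (b : ℕ → L d q)
    (h : ∀ n, a n =ᵐ[volume] b n) (N : ℕ) :
    (∑ n ∈ Finset.range N, a n : L d p) =ᵐ[volume] (∑ n ∈ Finset.range N, b n : L d q) := by
  induction N with
  | zero =>
    simp only [Finset.range_zero, Finset.sum_empty]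
    exact (Lp.coeFn_zero _ _ _).trans (Lp.coeFn_zero _ _ _).symm
  | succ N ih =>
    rw [Finset.sum_range_succ, Finset.sum_range_succ]
    refine (Lp.coeFn_add _ _).trans (EventuallyEq.trans ?_ (Lp.coeFn_add _ _).symm)
    exact ih.add (h N)

theorem Ut_compat (hd : d ≠ 0) (p q : ℝ≥0∞) [Fact (1 ≤ p)] [Fact (1 ≤ q)] (t : ℝ≥0) (f : L d p)
    (g : L d q) (h : f =ᵐ[volume] g) : Ut d p t f =ᵐ[volume] Ut d q t g := by
  have h1 := (Ut_hasSum hd p t f).tendsto_sum_nat
  have h2 := (Ut_hasSum hd q t g).tendsto_sum_nat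
  have h3 := tendstoInMeasure_of_tendsto_Lp h1
  have h4 := tendstoInMeasure_of_tendsto_Lp h2
  have h5 : ∀ n, Tn d p n t f =ᵐ[volume] Tn d q n t g := fun n =>
    mulOp_compat p q (mt d n t) (Ppow_compat p q h n)
  have h6 := sum_compat p q _ _ h5
  have h7 := h3.congr_left h6
  exact tendstoInMeasure_ae_unique h7 h4

/-- dominated convergence for multipliers -/
theorem mulOp_tendsto (p : ℝ≥0∞) [hp : Fact (1 ≤ p)] (hpt : p ≠ ⊤) {ι : Type*} {l : Filter ι}
    [l.IsCountablyGenerated] {m : ι → Mlt d} {k : Mlt d} {C : ℝ}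
    (hC : ∀ᶠ i in l, ∀ x, |(m i).f x| ≤ C) (hk : ∀ x, |k.f x| ≤ C)
    (hlim : ∀ x, Tendsto (fun i => (m i).f x) l (𝓝 (k.f x))) (f : L d p) :
    Tendsto (fun i => mulOp p (m i) f) l (𝓝 (mulOp p k f)) := by
  rw [tendsto_iff_norm_sub_tendsto_zero]
  have hp0 : p ≠ 0 := (zero_lt_one.trans_le hp.out).ne'
  have hpr : 0 < p.toReal := ENNReal.toReal_pos hp0 hpt
  have h1 : ∀ i, ‖mulOp p (m i) f - mulOp p k f‖ =
      ((∫⁻ x, ‖((m i).f x - k.f x) * f x‖ₑ ^ p.toReal) ^ (1 / p.toReal)).toReal := by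
    intro i
    rw [Lp.norm_def, eLpNorm_eq_lintegral_rpow_enorm_toReal hp0 hpt]
    congr 2
    refine lintegral_congr_ae ?_
    filter_upwards [Lp.coeFn_sub (mulOp p (m i) f) (mulOp p k f), mulOp_coe p (m i) f,
      mulOp_coe p k f] with x h1 h2 h3
    rw [h1, Pi.sub_apply, h2, h3, sub_mul]
  simp only [h1]
  have h2 : Tendsto (fun i => ∫⁻ x, ‖((m i).f x - k.f x) * f x‖ₑ ^ p.toReal) l
      (𝓝 (∫⁻ _x : X d, 0)) := by
    refine tendsto_lintegral_filter_of_dominated_convergence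
      (fun x => (ENNReal.ofReal (2 * C) * ‖f x‖ₑ) ^ p.toReal) ?_ ?_ ?_ ?_
    · refine Eventually.of_forall fun i => ?_
      have hm : Measurable (fun x : X d => (m i).f x - k.f x) := (m i).meas.sub k.meas
      have hf : Measurable (fun x : X d => f x) := (Lp.stronglyMeasurable f).measurable
      exact ((hm.mul hf).enorm).pow_const _
    · filter_upwards [hC] with i hi
      refine Eventually.of_forall fun x => ?_
      refine ENNReal.rpow_le_rpow ?_ hpr.le
      rw [enorm_mul]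
      refine mul_le_mul' ?_ le_rfl
      rw [Real.enorm_eq_ofReal_abs]
      refine ENNReal.ofReal_le_ofReal ?_
      have h3 := hi x
      have h4 := hk x
      calc |(m i).f x - k.f x| ≤ |(m i).f x| + |k.f x| := abs_sub _ _
        _ ≤ _ := by linarith
    · have h3 : ∀ x : X d, (ENNReal.ofReal (2 * C) * ‖f x‖ₑ) ^ p.toReal =
          (ENNReal.ofReal (2 * C)) ^ p.toReal * ‖f x‖ₑ ^ p.toReal := fun x =>
        ENNReal.mul_rpow_of_nonneg _ _ hpr.le
      simp only [h3]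
      rw [lintegral_const_mul' _ _ (ENNReal.rpow_ne_top_of_nonneg hpr.le ENNReal.ofReal_ne_top)]
      refine ENNReal.mul_ne_top (ENNReal.rpow_ne_top_of_nonneg hpr.le ENNReal.ofReal_ne_top) ?_
      exact (lintegral_rpow_enorm_lt_top_of_eLpNorm_lt_top hp0 hpt (Lp.eLpNorm_lt_top f)).ne
    · refine Eventually.of_forall fun x => ?_
      have h3 : Tendsto (fun i => ((m i).f x - k.f x) * f x) l (𝓝 ((k.f x - k.f x) * f x)) :=
        ((hlim x).sub_const _).mul_const _
      rw [sub_self, zero_mul] at h3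
      have h4 : Tendsto (fun i => ‖((m i).f x - k.f x) * f x‖ₑ ^ p.toReal) l
          (𝓝 (‖(0:ℝ)‖ₑ ^ p.toReal)) := by
        exact (ENNReal.continuous_rpow_const.tendsto _).comp (h3.enorm)
      rw [enorm_zero, ENNReal.zero_rpow_of_pos hpr] at h4
      exact h4
  rw [lintegral_zero] at h2
  have h3 : Tendsto (fun i => ((∫⁻ x, ‖((m i).f x - k.f x) * f x‖ₑ ^ p.toReal) ^
      (1 / p.toReal)).toReal) l (𝓝 (((0:ℝ≥0∞) ^ (1 / p.toReal)).toReal)) := by
    have h4 : ((0:ℝ≥0∞) ^ (1 / p.toReal)) ≠ ⊤ := by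
      rw [ENNReal.zero_rpow_of_pos (by positivity)]
      exact ENNReal.zero_ne_top
    exact (ENNReal.tendsto_toReal h4).comp ((ENNReal.continuous_rpow_const.tendsto _).comp h2)
  rw [ENNReal.zero_rpow_of_pos (by positivity)] at h3
  simpa using h3

theorem Ut_cont (hd : d ≠ 0) (p : ℝ≥0∞) [hp : Fact (1 ≤ p)] (hpt : p ≠ ⊤) (f : L d p) :
    Continuous (fun t : ℝ≥0 => Ut d p t f) := by
  have h1 : (fun t : ℝ≥0 => Ut d p t f) = fun t => ∑' n, Tn d p n t f := by
    funext t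
    exact (Ut_hasSum hd p t f).tsum_eq.symm
  rw [h1]
  refine continuous_tsum (u := fun n => (1 / 2) ^ n * ‖f‖) ?_ (summable_half.mul_right _) ?_
  · intro n
    rw [continuous_iff_continuousAt]
    intro t
    refine mulOp_tendsto p hpt (C := (1 / 2) ^ n) (Eventually.of_forall fun s => (mt d n s).bd)
      (mt d n t).bd (fun x => ?_) (((P d p) ^ n) f)
    have h2 : Continuous (fun s : ℝ≥0 => Real.exp (-2 * ((s:ℝ) * rate x)) *
        (((s:ℝ) * rate x) ^ n / n.factorial)) := by fun_prop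
    exact h2.tendsto t
  · intro n t
    refine (ContinuousLinearMap.le_opNorm _ _).trans ?_
    exact mul_le_mul_of_nonneg_right (Tn_norm_le hd p n t) (norm_nonneg _)

/-- finite sums of the multipliers are at most one -/
theorem sum_mt_le (N : ℕ) (t : ℝ≥0) (x : X d) : ∑ n ∈ Finset.range N, (mt d n t).f x ≤ 1 := by
  show ∑ n ∈ Finset.range N, Real.exp (-2 * (t * rate x)) * ((t * rate x) ^ n / n.factorial) ≤ 1
  have h0 : (0:ℝ) ≤ t * rate x := by positivity
  rw [← Finset.mul_sum]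
  generalize (t:ℝ) * rate x = s at *
  have h1 := Real.sum_le_exp_of_nonneg h0 N
  have h2 := Real.exp_pos (-2 * s)
  calc Real.exp (-2 * s) * ∑ n ∈ Finset.range N, (s ^ n / n.factorial) ≤
        Real.exp (-2 * s) * Real.exp s := by gcongr
    _ = Real.exp (-s) := by
        rw [← Real.exp_add]
        ring_nf
    _ ≤ 1 := by
        rw [Real.exp_le_one_iff]
        linarith

theorem ae_bound_top (f : L d ⊤) : ∀ᵐ x : X d, |f x| ≤ ‖f‖ := by
  filter_upwards [ae_le_eLpNormEssSup (f := f) (μ := (volume : Measure (X d)))] with x hx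
  rw [Lp.norm_def, eLpNorm_exponent_top, ← Real.norm_eq_abs, ← toReal_enorm]
  refine ENNReal.toReal_mono ?_ hx
  rw [← eLpNorm_exponent_top]
  exact Lp.eLpNorm_ne_top f

theorem norm_le_top {f : L d ⊤} {C : ℝ} (hC : 0 ≤ C) (h : ∀ᵐ x : X d, |f x| ≤ C) : ‖f‖ ≤ C := by
  rw [Lp.norm_def, eLpNorm_exponent_top]
  have h1 := eLpNormEssSup_le_of_ae_bound (f := f) (μ := (volume : Measure (X d))) (C := C)
    (by filter_upwards [h] with x hx; rw [Real.norm_eq_abs]; exact hx)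
  calc (eLpNormEssSup f volume).toReal ≤ (ENNReal.ofReal C).toReal :=
        ENNReal.toReal_mono ENNReal.ofReal_ne_top h1
    _ = C := ENNReal.toReal_ofReal hC

theorem sum_coe (p : ℝ≥0∞) [Fact (1 ≤ p)] (a : ℕ → L d p) (N : ℕ) :
    (∑ n ∈ Finset.range N, a n : L d p) =ᵐ[volume] fun x => ∑ n ∈ Finset.range N, a n x := by
  induction N with
  | zero =>
    simp only [Finset.range_zero, Finset.sum_empty]
    exact Lp.coeFn_zero _ _ _
  | succ N ih =>
    rw [Finset.sum_range_succ]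
    filter_upwards [Lp.coeFn_add (∑ n ∈ Finset.range N, a n : L d p) (a N), ih] with x h1 h2
    rw [h1, Pi.add_apply, h2, Finset.sum_range_succ]

theorem Ut_contr_top (hd : d ≠ 0) (t : ℝ≥0) : ‖Ut d ⊤ t‖ ≤ 1 := by
  refine ContinuousLinearMap.opNorm_le_bound _ zero_le_one fun f => ?_
  rw [one_mul]
  have h1 := (Ut_hasSum hd ⊤ t f).tendsto_sum_nat
  refine le_of_tendsto h1.norm (Eventually.of_forall fun N => ?_)
  have h2 : ∀ n, ∀ᵐ x : X d, |(Tn d ⊤ n t f) x| ≤ (mt d n t).f x * ‖f‖ := by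
    intro n
    have h3 := ae_bound_top (((P d ⊤) ^ n) f)
    have h4 : ‖((P d ⊤) ^ n) f‖ ≤ ‖f‖ := by
      refine (ContinuousLinearMap.le_opNorm _ _).trans ?_
      calc ‖(P d ⊤) ^ n‖ * ‖f‖ ≤ 1 * ‖f‖ :=
            mul_le_mul_of_nonneg_right (Ppow_norm_le hd ⊤ n) (norm_nonneg _)
        _ = _ := one_mul _
    filter_upwards [h3, mulOp_coe ⊤ (mt d n t) (((P d ⊤) ^ n) f)] with x h5 h6
    have h7 : (Tn d ⊤ n t f) x = (mt d n t).f x * (((P d ⊤) ^ n) f) x := h6
    rw [h7, abs_mul, abs_of_nonneg (mt_nonneg n t x)]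
    exact mul_le_mul_of_nonneg_left (h5.trans h4) (mt_nonneg n t x)
  refine norm_le_top (norm_nonneg _) ?_
  filter_upwards [sum_coe ⊤ (fun n => Tn d ⊤ n t f) N, ae_all_iff.2 h2] with x h3 h4
  rw [h3]
  calc |∑ n ∈ Finset.range N, (Tn d ⊤ n t f) x| ≤ ∑ n ∈ Finset.range N, |(Tn d ⊤ n t f) x| :=
        Finset.abs_sum_le_sum_abs _ _
    _ ≤ ∑ n ∈ Finset.range N, (mt d n t).f x * ‖f‖ := Finset.sum_le_sum fun n _ => h4 n
    _ = (∑ n ∈ Finset.range N, (mt d n t).f x) * ‖f‖ := by rw [Finset.sum_mul]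
    _ ≤ 1 * ‖f‖ := mul_le_mul_of_nonneg_right (sum_mt_le N t x) (norm_nonneg _)
    _ = _ := one_mul _

theorem Ut_contr_one (hd : d ≠ 0) (t : ℝ≥0) : ‖Ut d 1 t‖ ≤ 1 := by
  refine ContinuousLinearMap.opNorm_le_bound _ zero_le_one fun f => ?_
  rw [one_mul]
  have h1 := (Ut_hasSum hd 1 t f).tendsto_sum_nat
  refine le_of_tendsto h1.norm (Eventually.of_forall fun N => ?_)
  have hf : Integrable f volume := L1.integrable_coeFn f
  have h2 : ∀ n, ‖Tn d 1 n t f‖ ≤ ∫ x, (mt d n t).f x * |f x| := by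
    intro n
    have h3 : Tn d 1 n t f = ((P d 1) ^ n) (mulOp 1 (mt d n t) f) := by
      unfold Tn
      rw [← Ppow_mulOp 1 (mt_dil hd n t)]
      rfl
    rw [h3]
    have h4 : ‖((P d 1) ^ n) (mulOp 1 (mt d n t) f)‖ ≤ ‖mulOp 1 (mt d n t) f‖ := by
      refine (ContinuousLinearMap.le_opNorm _ _).trans ?_
      calc ‖(P d 1) ^ n‖ * ‖mulOp 1 (mt d n t) f‖ ≤ 1 * ‖mulOp 1 (mt d n t) f‖ :=
            mul_le_mul_of_nonneg_right (Ppow_norm_le hd 1 n) (norm_nonneg _)
        _ = _ := one_mul _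
    refine h4.trans (le_of_eq ?_)
    rw [L1.norm_eq_integral_norm]
    refine integral_congr_ae ?_
    filter_upwards [mulOp_coe 1 (mt d n t) f] with x hx
    rw [hx, Real.norm_eq_abs, abs_mul, abs_of_nonneg (mt_nonneg n t x)]
  have hint : ∀ n, Integrable (fun x => (mt d n t).f x * |f x|) volume := by
    intro n
    refine Integrable.bdd_mul (c := (mt d n t).C) hf.abs (mt d n t).meas.aestronglyMeasurable ?_
    exact Eventually.of_forall fun x => by rw [Real.norm_eq_abs]; exact (mt d n t).bd x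
  calc ‖∑ n ∈ Finset.range N, Tn d 1 n t f‖ ≤ ∑ n ∈ Finset.range N, ‖Tn d 1 n t f‖ := norm_sum_le _ _
    _ ≤ ∑ n ∈ Finset.range N, ∫ x, (mt d n t).f x * |f x| := Finset.sum_le_sum fun n _ => h2 n
    _ = ∫ x, ∑ n ∈ Finset.range N, (mt d n t).f x * |f x| := by
        rw [integral_finsetSum _ fun n _ => hint n]
    _ ≤ ∫ x, |f x| := by
        refine integral_mono (integrable_finsetSum _ fun n _ => hint n) hf.abs fun x => ?_
        beta_reduce
        rw [← Finset.sum_mul]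
        calc (∑ n ∈ Finset.range N, (mt d n t).f x) * |f x| ≤ 1 * |f x| :=
              mul_le_mul_of_nonneg_right (sum_mt_le N t x) (abs_nonneg _)
          _ = _ := one_mul _
    _ = ‖f‖ := by
        rw [L1.norm_eq_integral_norm]
        rfl

end Pool.Agent.R243.FB
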