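import Mathlib
import Pool.Agent.R243.FB.Props

set_option autoImplicit false

namespace Pool.Agent.R243.FB

open Filter Topology MeasureTheory Set
open scoped ENNReal NNReal

variable {d : ℕ}

/-- `1/v` -/
noncomputable def invm (d : ℕ) : Mlt d where
  f := fun x => 1 / rate x
  C := 1
  meas := rate_meas.const_div _
  nonneg := zero_le_one
  bd := fun x => by
    rw [abs_of_nonneg (by positivity), div_le_one (rate_pos x)]
    exact one_le_rate x

/-- `(e^{-2tv} - 1)/(tv)` -/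
noncomputable def q0 (d : ℕ) (t : ℝ≥0) : Mlt d where
  f := fun x => (Real.exp (-2 * (t * rate x)) - 1) / (t * rate x)
  C := 2
  meas := by
    have h := rate_meas (d := d)
    exact ((Real.measurable_exp.comp ((h.const_mul _).const_mul _)).sub_const _).div (h.const_mul _)
  nonneg := by norm_num
  bd := fun x => by
    have h0 : (0:ℝ) ≤ t * rate x := by positivity
    generalize (t:ℝ) * rate x = s at *
    rcases eq_or_lt_of_le h0 with h | h
    · rw [← h]
      norm_num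
    · have h1 : Real.exp (-2 * s) ≤ 1 := by
        rw [Real.exp_le_one_iff]
        linarith
      have h2 := Real.add_one_le_exp (-2 * s)
      rw [abs_div, abs_of_pos h, div_le_iff₀ h, abs_of_nonpos (by linarith)]
      linarith

/-- `e^{-2tv} (tv)^n / (n+1)!` -/
noncomputable def qs (d : ℕ) (n : ℕ) (t : ℝ≥0) : Mlt d where
  f := fun x => Real.exp (-2 * (t * rate x)) * ((t * rate x) ^ n / (n + 1).factorial)
  C := (1 / 2) ^ n
  meas := by
    have h := rate_meas (d := d)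
    exact (Real.measurable_exp.comp ((h.const_mul _).const_mul _)).mul
      (((h.const_mul _).pow_const n).div_const _)
  nonneg := by positivity
  bd := fun x => by
    have h0 : (0:ℝ) ≤ t * rate x := by positivity
    generalize (t:ℝ) * rate x = s at *
    rw [abs_of_nonneg (by positivity)]
    refine le_trans ?_ (exp_pow_le h0 n)
    have h1 : (n.factorial : ℝ) ≤ (n + 1).factorial := by
      exact_mod_cast Nat.factorial_le (Nat.le_succ n)
    gcongr

/-- constant multiplier -/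
noncomputable def cst (d : ℕ) (c : ℝ) : Mlt d where
  f := fun _ => c
  C := |c|
  meas := measurable_const
  nonneg := abs_nonneg _
  bd := fun _ => le_rfl

theorem mulOp_cst (p : ℝ≥0∞) [Fact (1 ≤ p)] (c : ℝ) (f : L d p) : mulOp p (cst d c) f = c • f := by
  ext1
  filter_upwards [mulOp_coe p (cst d c) f, Lp.coeFn_smul c f] with x h1 h2
  rw [h1, h2]
  rfl

theorem invm_dil (hd : d ≠ 0) (x : X d) : (invm d).f (gam d • x) = (invm d).f x := by
  show (1:ℝ) / rate (gam d • x) = _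
  rw [rate_dil hd]
  rfl

theorem q0_lim (x : X d) : Tendsto (fun t : ℝ≥0 => (q0 d t).f x) (𝓝[>] 0) (𝓝 (-2)) := by
  have h1 : HasDerivAt (fun s : ℝ => Real.exp (-2 * s)) (-2) 0 := by
    have h2 := ((hasDerivAt_id (0:ℝ)).const_mul (-2)).exp
    simpa using h2
  have h2 := h1.tendsto_slope_zero
  have h3 : Tendsto (fun t : ℝ≥0 => (t:ℝ) * rate x) (𝓝[>] 0) (𝓝[≠] 0) := by
    refine tendsto_nhdsWithin_iff.2 ⟨?_, ?_⟩
    · have h4 : Continuous (fun t : ℝ≥0 => (t:ℝ) * rate x) := by fun_prop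
      have h5 := h4.tendsto 0
      simp only [NNReal.coe_zero, zero_mul] at h5
      exact h5.mono_left nhdsWithin_le_nhds
    · filter_upwards [self_mem_nhdsWithin] with t ht
      have ht' : (0:ℝ) < t := ht
      exact (mul_pos ht' (rate_pos x)).ne'
  have h4 := h2.comp h3
  refine h4.congr fun t => ?_
  simp only [Function.comp_apply, zero_add, mul_zero, Real.exp_zero, smul_eq_mul]
  show _ = (Real.exp (-2 * (t * rate x)) - 1) / (t * rate x)
  rw [div_eq_inv_mul]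

theorem qs_lim (n : ℕ) (x : X d) :
    Tendsto (fun t : ℝ≥0 => (qs d n t).f x) (𝓝[>] 0) (𝓝 (if n = 0 then 1 else 0)) := by
  have h1 : Continuous (fun s : ℝ≥0 => Real.exp (-2 * ((s:ℝ) * rate x)) *
        (((s:ℝ) * rate x) ^ n / (n + 1).factorial)) := by fun_prop
  have h2 := h1.tendsto 0
  have h3 : Real.exp (-2 * (((0:ℝ≥0):ℝ) * rate x)) *
        ((((0:ℝ≥0):ℝ) * rate x) ^ n / (n + 1).factorial) = if n = 0 then 1 else 0 := by
    by_cases hn : n = 0
    · subst hn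
      simp
    · simp [hn]
  rw [h3] at h2
  exact h2.mono_left nhdsWithin_le_nhds

theorem mul_app {p : ℝ≥0∞} [Fact (1 ≤ p)] (A B : L d p →L[ℝ] L d p) (f : L d p) :
    (A * B) f = A (B f) := rfl

theorem Tn_app (p : ℝ≥0∞) [Fact (1 ≤ p)] (n : ℕ) (t : ℝ≥0) (f : L d p) :
    Tn d p n t f = mulOp p (mt d n t) (((P d p) ^ n) f) := rfl

theorem gen_zero (h : L d 1) {t : ℝ≥0} (ht : 0 < t) :
    (t:ℝ)⁻¹ • (mulOp 1 (mt d 0 t) (mulOp 1 (invm d) h) - mulOp 1 (invm d) h) =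
      mulOp 1 (q0 d t) h := by
  have ht' : (0:ℝ) < t := ht
  ext1
  filter_upwards [Lp.coeFn_smul (t:ℝ)⁻¹ (mulOp 1 (mt d 0 t) (mulOp 1 (invm d) h) - mulOp 1 (invm d) h),
    Lp.coeFn_sub (mulOp 1 (mt d 0 t) (mulOp 1 (invm d) h)) (mulOp 1 (invm d) h),
    mulOp_coe 1 (mt d 0 t) (mulOp 1 (invm d) h), mulOp_coe 1 (invm d) h,
    mulOp_coe 1 (q0 d t) h] with x e1 e2 e3 e4 e5
  rw [e1, Pi.smul_apply, e2, Pi.sub_apply, e3, e5, e4, smul_eq_mul]
  show (t:ℝ)⁻¹ * ((Real.exp (-2 * (t * rate x)) * ((t * rate x) ^ 0 / Nat.factorial 0)) *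
    ((1 / rate x) * h x) - (1 / rate x) * h x) = ((Real.exp (-2 * (t * rate x)) - 1) / (t * rate x)) * h x
  have e6 := (rate_pos x).ne'
  simp only [pow_zero, Nat.factorial_zero, Nat.cast_one, div_one, mul_one]
  field_simp

theorem gen_succ (k : L d 1) (n : ℕ) {t : ℝ≥0} (ht : 0 < t) :
    (t:ℝ)⁻¹ • (mulOp 1 (mt d (n + 1) t) (mulOp 1 (invm d) k)) = mulOp 1 (qs d n t) k := by
  have ht' : (0:ℝ) < t := ht
  ext1
  filter_upwards [Lp.coeFn_smul (t:ℝ)⁻¹ (mulOp 1 (mt d (n + 1) t) (mulOp 1 (invm d) k)),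
    mulOp_coe 1 (mt d (n + 1) t) (mulOp 1 (invm d) k), mulOp_coe 1 (invm d) k,
    mulOp_coe 1 (qs d n t) k] with x e1 e2 e3 e4
  rw [e1, Pi.smul_apply, e2, e3, e4, smul_eq_mul]
  show (t:ℝ)⁻¹ * ((Real.exp (-2 * (t * rate x)) * ((t * rate x) ^ (n + 1) / (n + 1).factorial)) *
    ((1 / rate x) * k x)) = (Real.exp (-2 * (t * rate x)) * ((t * rate x) ^ n / (n + 1).factorial)) * k x
  have e6 := (rate_pos x).ne'
  rw [pow_succ]
  field_simp

theorem invm_Ppow (hd : d ≠ 0) (n : ℕ) (h : L d 1) :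
    ((P d 1) ^ n) (mulOp 1 (invm d) h) = mulOp 1 (invm d) (((P d 1) ^ n) h) := by
  have h1 := congrArg (fun A : L d 1 →L[ℝ] L d 1 => A h) (Ppow_mulOp 1 (invm_dil hd) n)
  exact h1

theorem aux_smul {E : Type*} [AddCommGroup E] [Module ℝ E] (c : ℝ) (a b g : E) :
    c • (a + b - g) = c • (a - g) + c • b := by
  rw [add_sub_right_comm, smul_add]

theorem gen_tail (hd : d ≠ 0) (h : L d 1) {t : ℝ≥0} (ht : 0 < t) :
    (t:ℝ)⁻¹ • ∑' n, Tn d 1 (n + 1) t (mulOp 1 (invm d) h) =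
      ∑' n, mulOp 1 (qs d n t) (((P d 1) ^ (n + 1)) h) := by
  have h1 := Ut_hasSum hd 1 t (mulOp 1 (invm d) h)
  have hs : Summable (fun n => Tn d 1 (n + 1) t (mulOp 1 (invm d) h)) :=
    (summable_nat_add_iff 1).2 h1.summable
  have h4 : ∀ n, (t:ℝ)⁻¹ • Tn d 1 (n + 1) t (mulOp 1 (invm d) h) =
      mulOp 1 (qs d n t) (((P d 1) ^ (n + 1)) h) := by
    intro n
    have e1 := Tn_app 1 (n + 1) t (mulOp 1 (invm d) h)
    have e2 := invm_Ppow hd (n + 1) h
    have e3 := gen_succ (((P d 1) ^ (n + 1)) h) n ht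
    calc (t:ℝ)⁻¹ • Tn d 1 (n + 1) t (mulOp 1 (invm d) h) =
          (t:ℝ)⁻¹ • mulOp 1 (mt d (n + 1) t) (((P d 1) ^ (n + 1)) (mulOp 1 (invm d) h)) :=
          congrArg (fun z => (t:ℝ)⁻¹ • z) e1
      _ = (t:ℝ)⁻¹ • mulOp 1 (mt d (n + 1) t) (mulOp 1 (invm d) (((P d 1) ^ (n + 1)) h)) :=
          congrArg (fun z => (t:ℝ)⁻¹ • mulOp 1 (mt d (n + 1) t) z) e2
      _ = _ := e3
  calc (t:ℝ)⁻¹ • ∑' n, Tn d 1 (n + 1) t (mulOp 1 (invm d) h) =
        ∑' n, (t:ℝ)⁻¹ • Tn d 1 (n + 1) t (mulOp 1 (invm d) h) := (hs.tsum_const_smul _).symm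
    _ = _ := tsum_congr h4

theorem gen_form (hd : d ≠ 0) (h : L d 1) {t : ℝ≥0} (ht : 0 < t) :
    (t:ℝ)⁻¹ • (Ut d 1 t (mulOp 1 (invm d) h) - mulOp 1 (invm d) h) =
      mulOp 1 (q0 d t) h + ∑' n, mulOp 1 (qs d n t) (((P d 1) ^ (n + 1)) h) := by
  have h1 := Ut_hasSum hd 1 t (mulOp 1 (invm d) h)
  have h2 : Ut d 1 t (mulOp 1 (invm d) h) = Tn d 1 0 t (mulOp 1 (invm d) h) +
      ∑' n, Tn d 1 (n + 1) t (mulOp 1 (invm d) h) := by
    rw [← h1.tsum_eq]
    exact h1.summable.tsum_eq_zero_add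
  have h3 : (t:ℝ)⁻¹ • (Tn d 1 0 t (mulOp 1 (invm d) h) - mulOp 1 (invm d) h) = mulOp 1 (q0 d t) h := by
    have e0 : Tn d 1 0 t (mulOp 1 (invm d) h) = mulOp 1 (mt d 0 t) (mulOp 1 (invm d) h) := by
      rw [Tn_app, pow_zero]
      rfl
    rw [e0]
    exact gen_zero h ht
  calc (t:ℝ)⁻¹ • (Ut d 1 t (mulOp 1 (invm d) h) - mulOp 1 (invm d) h) =
        (t:ℝ)⁻¹ • (Tn d 1 0 t (mulOp 1 (invm d) h) + ∑' n, Tn d 1 (n + 1) t (mulOp 1 (invm d) h)
          - mulOp 1 (invm d) h) := congrArg (fun z => (t:ℝ)⁻¹ • (z - mulOp 1 (invm d) h)) h2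
    _ = (t:ℝ)⁻¹ • (Tn d 1 0 t (mulOp 1 (invm d) h) - mulOp 1 (invm d) h) +
          (t:ℝ)⁻¹ • ∑' n, Tn d 1 (n + 1) t (mulOp 1 (invm d) h) := aux_smul _ _ _ _
    _ = _ := congrArg₂ (fun y z => y + z) h3 (gen_tail hd h ht)

/-- the generator on elements of the form `h/v` -/
theorem gen_of (hd : d ≠ 0) (h : L d 1) :
    Tendsto (fun t : ℝ≥0 => (t:ℝ)⁻¹ • (Ut d 1 t (mulOp 1 (invm d) h) - mulOp 1 (invm d) h)) (𝓝[>] 0)
      (𝓝 (P d 1 h - (2:ℝ) • h)) := by
  have hlim1 : Tendsto (fun t : ℝ≥0 => mulOp 1 (q0 d t) h) (𝓝[>] 0) (𝓝 (mulOp 1 (cst d (-2)) h)) := by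
    refine mulOp_tendsto 1 ENNReal.one_ne_top (C := 2) (Eventually.of_forall fun t => (q0 d t).bd)
      (fun x => ?_) (fun x => q0_lim x) h
    show |(-2:ℝ)| ≤ 2
    norm_num
  have hlim2 : Tendsto (fun t : ℝ≥0 => ∑' n, mulOp 1 (qs d n t) (((P d 1) ^ (n + 1)) h)) (𝓝[>] 0)
      (𝓝 (∑' n : ℕ, mulOp 1 (cst d (if n = 0 then 1 else 0)) (((P d 1) ^ (n + 1)) h))) := by
    refine tendsto_tsum_of_dominated_convergence (bound := fun n => (1 / 2) ^ n * ‖h‖)
      (summable_half.mul_right _) (fun n => ?_) (Eventually.of_forall fun t n => ?_)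
    · by_cases hn : n = 0
      · subst hn
        simp only [if_true]
        refine mulOp_tendsto 1 ENNReal.one_ne_top (C := 1) (Eventually.of_forall fun t x => ?_)
          (fun x => ?_) (fun x => ?_) _
        · have := (qs d 0 t).bd x
          have h1 : (qs d 0 t).C = 1 := pow_zero _
          rwa [h1] at this
        · show |(1:ℝ)| ≤ 1
          norm_num
        · have := qs_lim 0 x
          rw [if_pos rfl] at this
          exact this
      · simp only [hn, if_false]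
        refine mulOp_tendsto 1 ENNReal.one_ne_top (C := (1 / 2) ^ n)
          (Eventually.of_forall fun t x => (qs d n t).bd x)
          (fun x => ?_) (fun x => ?_) _
        · show |(0:ℝ)| ≤ (1 / 2) ^ n
          rw [abs_zero]
          positivity
        · have := qs_lim n x
          rw [if_neg hn] at this
          exact this
    · refine (ContinuousLinearMap.le_opNorm _ _).trans ?_
      have h1 := mulOp_norm_le 1 (qs d n t) (qs d n t).nonneg (qs d n t).bd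
      have h2 : ‖((P d 1) ^ (n + 1)) h‖ ≤ ‖h‖ := by
        refine (ContinuousLinearMap.le_opNorm _ _).trans ?_
        calc ‖(P d 1) ^ (n + 1)‖ * ‖h‖ ≤ 1 * ‖h‖ :=
              mul_le_mul_of_nonneg_right (Ppow_norm_le hd 1 (n + 1)) (norm_nonneg _)
          _ = _ := one_mul _
      exact mul_le_mul h1 h2 (norm_nonneg _) (qs d n t).nonneg
  have h5 : ∑' n : ℕ, mulOp 1 (cst d (if n = 0 then 1 else 0)) (((P d 1) ^ (n + 1)) h) = P d 1 h := by
    rw [tsum_eq_single 0]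
    · rw [mulOp_cst]
      simp
    · intro n hn
      rw [mulOp_cst]
      simp [hn]
  have h6 := hlim1.add hlim2
  rw [h5, mulOp_cst] at h6
  have h7 : (-2:ℝ) • h + P d 1 h = P d 1 h - (2:ℝ) • h := by
    rw [neg_smul]
    abel
  rw [h7] at h6
  refine h6.congr' ?_
  filter_upwards [self_mem_nhdsWithin] with t ht
  exact (gen_form hd h ht).symm

end Pool.Agent.R243.FB
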