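import Mathlib
import Pool.Agent.R243.FB.Gen

set_option autoImplicit false

namespace Pool.Agent.R243.FB

open Filter Topology MeasureTheory Set
open scoped ENNReal NNReal

variable {d : ℕ}

/-- `1/(|λ|/v + 2)` -/
noncomputable def wf (lam : ℝ) (x : X d) : ℝ := (|lam| / rate x + 2)⁻¹

theorem wf_pos (lam : ℝ) (x : X d) : 0 < wf lam x := by
  unfold wf
  positivity

theorem wf_le (lam : ℝ) (x : X d) : wf lam x ≤ 1 / 2 := by
  unfold wf
  rw [one_div]
  apply inv_anti₀ (by norm_num)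
  have : 0 ≤ |lam| / rate x := by positivity
  linarith

theorem wf_dil (hd : d ≠ 0) (lam : ℝ) (x : X d) : wf lam (gam d • x) = wf lam x := by
  unfold wf
  rw [rate_dil hd]

theorem wf_meas (lam : ℝ) : Measurable (wf lam : X d → ℝ) := by
  unfold wf
  exact ((rate_meas.const_div _).add_const _).inv

/-- `w^{n+1}` -/
noncomputable def wm (d : ℕ) (lam : ℝ) (n : ℕ) : Mlt d where
  f := fun x => wf lam x ^ (n + 1)
  C := (1 / 2) ^ (n + 1)
  meas := (wf_meas lam).pow_const _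
  nonneg := by positivity
  bd := fun x => by
    rw [abs_of_nonneg (pow_nonneg (wf_pos lam x).le _)]
    exact pow_le_pow_left₀ (wf_pos lam x).le (wf_le lam x) _

/-- `1/w` -/
noncomputable def wi (d : ℕ) (lam : ℝ) : Mlt d where
  f := fun x => |lam| / rate x + 2
  C := |lam| + 2
  meas := (rate_meas.const_div _).add_const _
  nonneg := by positivity
  bd := fun x => by
    rw [abs_of_nonneg (by positivity)]
    have : |lam| / rate x ≤ |lam| := div_le_self (abs_nonneg _) (one_le_rate x)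
    linarith

/-- terms of the Neumann series -/
noncomputable def Wn (d : ℕ) (lam : ℝ) (n : ℕ) : L d 1 →L[ℝ] L d 1 :=
  mulOp 1 (wm d lam n) * (P d 1) ^ n

theorem Wn_norm_le (hd : d ≠ 0) (lam : ℝ) (n : ℕ) : ‖Wn d lam n‖ ≤ (1 / 2) ^ (n + 1) := by
  unfold Wn
  have h1 := mulOp_norm_le 1 (wm d lam n) (wm d lam n).nonneg (wm d lam n).bd
  have h2 := Ppow_norm_le hd 1 n
  calc ‖mulOp 1 (wm d lam n) * (P d 1) ^ n‖ ≤ ‖mulOp 1 (wm d lam n)‖ * ‖(P d 1) ^ n‖ := norm_mul_le _ _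
    _ ≤ (1 / 2) ^ (n + 1) * 1 := mul_le_mul h1 h2 (norm_nonneg _) (wm d lam n).nonneg
    _ = _ := mul_one _

theorem hasSum_half : HasSum (fun n : ℕ => ((1:ℝ) / 2) ^ (n + 1)) 1 := by
  have h := (hasSum_geometric_of_lt_one (r := (1:ℝ) / 2) (by norm_num) (by norm_num)).mul_left (1 / 2)
  have e : (1:ℝ) / 2 * (1 - 1 / 2)⁻¹ = 1 := by norm_num
  rw [e] at h
  have e2 : (fun n : ℕ => ((1:ℝ) / 2) ^ (n + 1)) = fun n : ℕ => 1 / 2 * (1 / 2) ^ n := by
    funext n
    ring
  rw [e2]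
  exact h

/-- `V (λ - T)^{-1}` -/
noncomputable def Wop (d : ℕ) (lam : ℝ) : L d 1 →L[ℝ] L d 1 := ∑' n, Wn d lam n

theorem Wn_summable (hd : d ≠ 0) (lam : ℝ) : Summable (fun n => ‖Wn d lam n‖) :=
  Summable.of_nonneg_of_le (fun _ => norm_nonneg _) (fun n => Wn_norm_le hd lam n) hasSum_half.summable

theorem Wop_norm_le (hd : d ≠ 0) (lam : ℝ) : ‖Wop d lam‖ ≤ 1 := by
  unfold Wop
  refine (norm_tsum_le_tsum_norm (Wn_summable hd lam)).trans ?_
  rw [← hasSum_half.tsum_eq]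
  exact (Wn_summable hd lam).tsum_le_tsum (fun n => Wn_norm_le hd lam n) hasSum_half.summable

theorem Wop_hasSum (hd : d ≠ 0) (lam : ℝ) (f : L d 1) :
    HasSum (fun n => Wn d lam n f) (Wop d lam f) := by
  have h1 : HasSum (fun n => Wn d lam n) (Wop d lam) := by
    unfold Wop
    exact (Wn_summable hd lam).of_norm.hasSum
  have h2 : HasSum (fun n => (ContinuousLinearMap.apply ℝ (L d 1) f) (Wn d lam n))
      ((ContinuousLinearMap.apply ℝ (L d 1) f) (Wop d lam)) := ContinuousLinearMap.hasSum _ h1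
  simpa only [ContinuousLinearMap.apply_apply] using h2

theorem wi_wm_zero (lam : ℝ) (f : L d 1) : mulOp 1 (wi d lam) (Wn d lam 0 f) = f := by
  have e0 : Wn d lam 0 f = mulOp 1 (wm d lam 0) f := by
    show mulOp 1 (wm d lam 0) (((P d 1) ^ 0) f) = _
    rw [pow_zero]
    rfl
  rw [e0]
  ext1
  filter_upwards [mulOp_coe 1 (wi d lam) (mulOp 1 (wm d lam 0) f), mulOp_coe 1 (wm d lam 0) f]
    with x h1 h2
  rw [h1, h2]
  show (|lam| / rate x + 2) * ((|lam| / rate x + 2)⁻¹ ^ (0 + 1) * f x) = f x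
  have h3 : |lam| / rate x + 2 ≠ 0 := by positivity
  rw [zero_add, pow_one, mul_inv_cancel_left₀ h3]

theorem wi_wm_succ (hd : d ≠ 0) (lam : ℝ) (n : ℕ) (f : L d 1) :
    mulOp 1 (wi d lam) (Wn d lam (n + 1) f) = P d 1 (Wn d lam n f) := by
  have e1 : P d 1 (Wn d lam n f) = mulOp 1 (wm d lam n) (((P d 1) ^ (n + 1)) f) := by
    have h1 : ∀ x, (wm d lam n).f (gam d • x) = (wm d lam n).f x := by
      intro x
      show wf lam (gam d • x) ^ (n + 1) = _
      rw [wf_dil hd]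
      rfl
    have h2 := congrArg (fun A : L d 1 →L[ℝ] L d 1 => A (((P d 1) ^ n) f)) (P_mulOp 1 h1)
    have h3 : ((P d 1) ^ (n + 1)) f = P d 1 (((P d 1) ^ n) f) := by
      rw [pow_succ']
      rfl
    rw [h3]
    exact h2
  rw [e1]
  have e2 : Wn d lam (n + 1) f = mulOp 1 (wm d lam (n + 1)) (((P d 1) ^ (n + 1)) f) := rfl
  rw [e2]
  ext1
  set k := ((P d 1) ^ (n + 1)) f
  filter_upwards [mulOp_coe 1 (wi d lam) (mulOp 1 (wm d lam (n + 1)) k), mulOp_coe 1 (wm d lam (n + 1)) k,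
    mulOp_coe 1 (wm d lam n) k] with x h1 h2 h3
  rw [h1, h2, h3]
  show (|lam| / rate x + 2) * ((|lam| / rate x + 2)⁻¹ ^ (n + 1 + 1) * k x) =
    (|lam| / rate x + 2)⁻¹ ^ (n + 1) * k x
  have h3 : |lam| / rate x + 2 ≠ 0 := by positivity
  rw [pow_succ' _ (n + 1), mul_assoc, mul_inv_cancel_left₀ h3]

/-- the resolvent equation -/
theorem Wop_eq (hd : d ≠ 0) (lam : ℝ) (f : L d 1) :
    mulOp 1 (wi d lam) (Wop d lam f) = f + P d 1 (Wop d lam f) := by
  have h1 := Wop_hasSum hd lam f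
  have h2 : HasSum (fun n => mulOp 1 (wi d lam) (Wn d lam n f)) (mulOp 1 (wi d lam) (Wop d lam f)) :=
    ContinuousLinearMap.hasSum _ h1
  have h3 : HasSum (fun n => P d 1 (Wn d lam n f)) (P d 1 (Wop d lam f)) :=
    ContinuousLinearMap.hasSum _ h1
  have h4 := h2.summable.tsum_eq_zero_add
  rw [h2.tsum_eq] at h4
  rw [h4, wi_wm_zero, tsum_congr (fun n => wi_wm_succ hd lam n f), h3.tsum_eq]

/-- the resolvent of the generator applied to `f` -/
noncomputable def Rop (d : ℕ) (lam : ℝ) (f : L d 1) : L d 1 := mulOp 1 (invm d) (Wop d lam f)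

theorem Rop_eq (hd : d ≠ 0) {lam : ℝ} (hl : 0 < lam) (f : L d 1) :
    lam • Rop d lam f - f = P d 1 (Wop d lam f) - (2:ℝ) • Wop d lam f := by
  have h1 := Wop_eq hd lam f
  have h2 : mulOp 1 (wi d lam) (Wop d lam f) = lam • Rop d lam f + (2:ℝ) • Wop d lam f := by
    unfold Rop
    ext1
    filter_upwards [mulOp_coe 1 (wi d lam) (Wop d lam f),
      Lp.coeFn_add (lam • mulOp 1 (invm d) (Wop d lam f)) ((2:ℝ) • Wop d lam f),
      Lp.coeFn_smul lam (mulOp 1 (invm d) (Wop d lam f)), Lp.coeFn_smul (2:ℝ) (Wop d lam f),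
      mulOp_coe 1 (invm d) (Wop d lam f)] with x e1 e2 e3 e4 e5
    rw [e1, e2, Pi.add_apply, e3, e4, Pi.smul_apply, Pi.smul_apply, e5]
    show (|lam| / rate x + 2) * _ = lam • ((1 / rate x) * _) + (2:ℝ) • _
    rw [abs_of_pos hl, smul_eq_mul, smul_eq_mul]
    ring
  rw [h2] at h1
  rw [sub_eq_sub_iff_add_eq_add, h1]
  abel

theorem Rop_gen (hd : d ≠ 0) {lam : ℝ} (hl : 0 < lam) (f : L d 1) :
    Tendsto (fun t : ℝ≥0 => (t:ℝ)⁻¹ • (Ut d 1 t (Rop d lam f) - Rop d lam f)) (𝓝[>] 0)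
      (𝓝 (lam • Rop d lam f - f)) := by
  rw [Rop_eq hd hl]
  exact gen_of hd (Wop d lam f)

theorem Wop_coe (lam : ℝ) (f : L d 1) :
    Wop d lam f =ᵐ[volume] fun x => (rate x : ℝ) * Rop d lam f x := by
  filter_upwards [mulOp_coe 1 (invm d) (Wop d lam f)] with x h1
  have h2 : Rop d lam f x = (1 / rate x) * Wop d lam f x := h1
  rw [h2, ← mul_assoc, mul_one_div_cancel (rate_pos x).ne', one_mul]

/-! ### `V` is `T`-bounded -/

/-- `v 1_{v ≤ K}` -/
noncomputable def trunc (d K : ℕ) : Mlt d where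
  f := fun x => if rate x ≤ K then (rate x : ℝ) else 0
  C := K
  meas := by
    refine Measurable.ite ?_ rate_meas measurable_const
    have h : {x : X d | rate x ≤ K} = {x : X d | (rate x : ℝ) ≤ K} := by
      ext x
      simp
    rw [h]
    exact measurableSet_le rate_meas measurable_const
  nonneg := Nat.cast_nonneg _
  bd := fun x => by
    split_ifs with h
    · rw [abs_of_nonneg (Nat.cast_nonneg _)]
      exact_mod_cast h
    · rw [abs_zero]
      exact Nat.cast_nonneg _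

/-- `1_{v ≤ K}` -/
noncomputable def ind (d K : ℕ) : Mlt d where
  f := fun x => if rate x ≤ K then (1 : ℝ) else 0
  C := 1
  meas := by
    refine Measurable.ite ?_ measurable_const measurable_const
    have h : {x : X d | rate x ≤ K} = {x : X d | (rate x : ℝ) ≤ K} := by
      ext x
      simp
    rw [h]
    exact measurableSet_le rate_meas measurable_const
  nonneg := zero_le_one
  bd := fun x => by
    split_ifs with h
    · simp
    · simp

theorem ind_dil (hd : d ≠ 0) (K : ℕ) (x : X d) : (ind d K).f (gam d • x) = (ind d K).f x := by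
  show (if rate (gam d • x) ≤ K then (1 : ℝ) else 0) = _
  rw [rate_dil hd]
  rfl

/-- invariant multipliers commute with the semigroup -/
theorem Ut_mulOp (hd : d ≠ 0) (p : ℝ≥0∞) [Fact (1 ≤ p)] {m : Mlt d}
    (h : ∀ x, m.f (gam d • x) = m.f x) (t : ℝ≥0) (f : L d p) :
    Ut d p t (mulOp p m f) = mulOp p m (Ut d p t f) := by
  have h1 := Ut_hasSum hd p t (mulOp p m f)
  have h2 : HasSum (fun n => mulOp p m (Tn d p n t f)) (mulOp p m (Ut d p t f)) :=
    ContinuousLinearMap.hasSum _ (Ut_hasSum hd p t f)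
  have h3 : ∀ n, Tn d p n t (mulOp p m f) = mulOp p m (Tn d p n t f) := by
    intro n
    have e1 : ((P d p) ^ n) (mulOp p m f) = mulOp p m (((P d p) ^ n) f) :=
      congrArg (fun A : L d p →L[ℝ] L d p => A f) (Ppow_mulOp p h n)
    rw [Tn_app, Tn_app, e1]
    ext1
    set k := ((P d p) ^ n) f
    filter_upwards [mulOp_coe p (mt d n t) (mulOp p m k), mulOp_coe p m k,
      mulOp_coe p m (mulOp p (mt d n t) k), mulOp_coe p (mt d n t) k] with x e1 e2 e3 e4
    rw [e1, e2, e3, e4]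
    ring
  simp only [h3] at h1
  exact h1.unique h2

theorem mulOp_norm_le' (p : ℝ≥0∞) [Fact (1 ≤ p)] (m : Mlt d) {C : ℝ} (h0 : 0 ≤ C)
    (hC : ∀ x, |m.f x| ≤ C) (f : L d p) : ‖mulOp p m f‖ ≤ C * ‖f‖ :=
  (ContinuousLinearMap.le_opNorm _ _).trans
    (mul_le_mul_of_nonneg_right (mulOp_norm_le p m h0 hC) (norm_nonneg _))

theorem trunc_bound (hd : d ≠ 0) {g h : L d 1}
    (hg : Tendsto (fun t : ℝ≥0 => (t:ℝ)⁻¹ • (Ut d 1 t g - g)) (𝓝[>] 0) (𝓝 h)) (K : ℕ) :
    ‖mulOp 1 (trunc d K) g‖ ≤ ‖h‖ := by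
  set u := mulOp 1 (trunc d K) g with hu
  have h1 := gen_of hd u
  have h2 : mulOp 1 (invm d) u = mulOp 1 (ind d K) g := by
    ext1
    filter_upwards [mulOp_coe 1 (invm d) u, mulOp_coe 1 (trunc d K) g, mulOp_coe 1 (ind d K) g]
      with x e1 e2 e3
    rw [e1, hu, e2, e3]
    show (1 / (rate x : ℝ)) * ((if rate x ≤ K then (rate x : ℝ) else 0) * g x) =
      (if rate x ≤ K then (1:ℝ) else 0) * g x
    split_ifs
    · rw [← mul_assoc, one_div_mul_cancel (rate_pos x).ne']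
    · simp
  have h3 : Tendsto (fun t : ℝ≥0 => (t:ℝ)⁻¹ • (Ut d 1 t (mulOp 1 (invm d) u) - mulOp 1 (invm d) u))
      (𝓝[>] 0) (𝓝 (mulOp 1 (ind d K) h)) := by
    have h4 : Tendsto (fun t : ℝ≥0 => mulOp 1 (ind d K) ((t:ℝ)⁻¹ • (Ut d 1 t g - g))) (𝓝[>] 0)
        (𝓝 (mulOp 1 (ind d K) h)) := ((mulOp 1 (ind d K)).continuous.tendsto h).comp hg
    refine h4.congr fun t => ?_
    rw [h2, Ut_mulOp hd 1 (ind_dil hd K), map_smul, map_sub]
  have h5 : P d 1 u - (2:ℝ) • u = mulOp 1 (ind d K) h := tendsto_nhds_unique h1 h3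
  have h6 : ‖mulOp 1 (ind d K) h‖ ≤ ‖h‖ := by
    have := mulOp_norm_le' 1 (ind d K) zero_le_one (ind d K).bd h
    rwa [one_mul] at this
  have h7 : ‖P d 1 u‖ ≤ ‖u‖ := by
    refine (ContinuousLinearMap.le_opNorm _ _).trans ?_
    calc ‖P d 1‖ * ‖u‖ ≤ 1 * ‖u‖ := mul_le_mul_of_nonneg_right (P_norm_le hd 1) (norm_nonneg _)
      _ = _ := one_mul _
  have h8 : ‖(2:ℝ) • u‖ ≤ ‖P d 1 u‖ + ‖P d 1 u - (2:ℝ) • u‖ := by
    have : (2:ℝ) • u = P d 1 u - (P d 1 u - (2:ℝ) • u) := by abel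
    calc ‖(2:ℝ) • u‖ = ‖P d 1 u - (P d 1 u - (2:ℝ) • u)‖ := by rw [← this]
      _ ≤ _ := norm_sub_le _ _
  rw [norm_smul, Real.norm_of_nonneg (by norm_num), h5] at h8
  linarith

theorem tbounded (hd : d ≠ 0) {g h : L d 1}
    (hg : Tendsto (fun t : ℝ≥0 => (t:ℝ)⁻¹ • (Ut d 1 t g - g)) (𝓝[>] 0) (𝓝 h)) :
    Integrable (fun x : X d => (rate x : ℝ) * g x) volume := by
  have hgm : Measurable (fun x : X d => g x) := (Lp.stronglyMeasurable g).measurable
  rw [← memLp_one_iff_integrable]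
  refine ⟨(rate_meas.mul hgm).aestronglyMeasurable, ?_⟩
  have h1 := Lp.eLpNorm_lim_le_liminf_eLpNorm (μ := (volume : Measure (X d))) (p := 1)
    (f := fun (K : ℕ) (x : X d) => (trunc d K).f x * g x)
    (fun K => ((trunc d K).meas.mul hgm).aestronglyMeasurable) (fun x => (rate x : ℝ) * g x)
    (Eventually.of_forall fun x => by
      refine tendsto_const_nhds.congr' ?_
      filter_upwards [eventually_ge_atTop (rate x)] with K hK
      have : (trunc d K).f x = rate x := if_pos hK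
      rw [this])
  refine lt_of_le_of_lt h1 (lt_of_le_of_lt (b := ENNReal.ofReal ‖h‖) ?_ ENNReal.ofReal_lt_top)
  refine liminf_le_of_frequently_le' (Frequently.of_forall fun K => ?_)
  have h2 := trunc_bound hd hg K
  rw [Lp.norm_def, eLpNorm_congr_ae (mulOp_coe 1 (trunc d K) g)] at h2
  rw [← ENNReal.ofReal_toReal (mul_memLp (trunc d K) (Lp.memLp g)).2.ne]
  exact ENNReal.ofReal_le_ofReal h2

/-! ### the spectral radius -/

/-- `1_{v = k}` -/
noncomputable def blk (d k : ℕ) : Mlt d where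
  f := fun x => if rate x = k then (1 : ℝ) else 0
  C := 1
  meas := by
    refine Measurable.ite ?_ measurable_const measurable_const
    have h : {x : X d | rate x = k} = {x : X d | (rate x : ℝ) = k} := by
      ext x
      simp
    rw [h]
    exact rate_meas (measurableSet_singleton _)
  nonneg := zero_le_one
  bd := fun x => by
    split_ifs with h
    · simp
    · simp

theorem blk_dil (hd : d ≠ 0) (k : ℕ) (x : X d) : (blk d k).f (gam d • x) = (blk d k).f x := by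
  show (if rate (gam d • x) = k then (1 : ℝ) else 0) = _
  rw [rate_dil hd]
  rfl

/-- the functional `∫_{v = k}` -/
noncomputable def Lam (d k : ℕ) (f : L d 1) : ℝ := ∫ x, mulOp 1 (blk d k) f x

theorem Lam_abs_le (k : ℕ) (f : L d 1) : |Lam d k f| ≤ ‖f‖ := by
  unfold Lam
  have h1 : ‖mulOp 1 (blk d k) f‖ ≤ ‖f‖ := by
    have := mulOp_norm_le' 1 (blk d k) zero_le_one (blk d k).bd f
    rwa [one_mul] at this
  refine le_trans ?_ h1
  rw [L1.norm_eq_integral_norm, ← Real.norm_eq_abs]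
  exact norm_integral_le_integral_norm _

theorem Lam_P (hd : d ≠ 0) (k : ℕ) (f : L d 1) : Lam d k (P d 1 f) = Lam d k f := by
  unfold Lam
  have e1 : mulOp 1 (blk d k) (P d 1 f) = P d 1 (mulOp 1 (blk d k) f) :=
    (congrArg (fun A : L d 1 →L[ℝ] L d 1 => A f) (P_mulOp 1 (blk_dil hd k))).symm
  rw [e1, P_integral hd]

theorem Lam_add (k : ℕ) (f g : L d 1) : Lam d k (f + g) = Lam d k f + Lam d k g := by
  unfold Lam
  rw [map_add, integral_congr_ae (Lp.coeFn_add _ _)]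
  exact integral_add (L1.integrable_coeFn _) (L1.integrable_coeFn _)

theorem Lam_wi (k : ℕ) (lam : ℝ) (f : L d 1) :
    Lam d k (mulOp 1 (wi d lam) f) = (|lam| / k + 2) * Lam d k f := by
  unfold Lam
  rw [← integral_const_mul]
  refine integral_congr_ae ?_
  filter_upwards [mulOp_coe 1 (blk d k) (mulOp 1 (wi d lam) f), mulOp_coe 1 (wi d lam) f,
    mulOp_coe 1 (blk d k) f] with x h1 h2 h3
  rw [h1, h2, h3]
  show (if rate x = k then (1 : ℝ) else 0) * ((|lam| / rate x + 2) * f x) =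
    (|lam| / k + 2) * ((if rate x = k then (1 : ℝ) else 0) * f x)
  split_ifs with h
  · rw [h]
    ring
  · ring

theorem Lam_W (hd : d ≠ 0) (k : ℕ) (lam : ℝ) (f : L d 1) :
    Lam d k (Wop d lam f) = (|lam| / k + 1)⁻¹ * Lam d k f := by
  have h1 := congrArg (Lam d k) (Wop_eq hd lam f)
  rw [Lam_wi, Lam_add, Lam_P hd] at h1
  have h2 : |lam| / (k:ℝ) + 1 ≠ 0 := by positivity
  rw [eq_inv_mul_iff_mul_eq₀ h2]
  linarith

theorem Lam_Wpow (hd : d ≠ 0) (k : ℕ) (lam : ℝ) (n : ℕ) (f : L d 1) :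
    Lam d k ((Wop d lam ^ n) f) = ((|lam| / k + 1)⁻¹) ^ n * Lam d k f := by
  induction n with
  | zero =>
    rw [pow_zero, pow_zero, one_mul]
    rfl
  | succ n ih =>
    have h1 : (Wop d lam ^ (n + 1)) f = Wop d lam ((Wop d lam ^ n) f) := by
      rw [pow_succ']
      rfl
    rw [h1, Lam_W hd, ih, pow_succ]
    ring

/-- an open shell on which the rate is `k + 1` -/
def shell (d k : ℕ) : Set (X d) := {x | x ≠ 0 ∧ 1 / ((k:ℝ) + 1) < lg x ∧ lg x < 1 / (k:ℝ)}

theorem shell_rate {k : ℕ} (hk : 1 ≤ k) {x : X d} (hx : x ∈ shell d k) : rate x = k + 1 := by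
  obtain ⟨_, h1, h2⟩ := hx
  have hk' : (1:ℝ) ≤ k := by exact_mod_cast hk
  have hk0 : (0:ℝ) < k := by linarith
  have h3 : 0 < lg x := lt_trans (by positivity) h1
  have h4 : 1 / (k:ℝ) ≤ 1 := by
    rw [div_le_one hk0]
    exact hk'
  have h5 : Int.fract (lg x) = lg x := Int.fract_eq_self.2 ⟨h3.le, by linarith⟩
  unfold rate
  rw [h5, add_comm]
  congr 1
  rw [Nat.floor_eq_iff (by positivity)]
  constructor
  · rw [le_div_iff₀ h3]
    rw [lt_div_iff₀ hk0] at h2
    linarith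
  · rw [div_lt_iff₀ h3]
    rw [div_lt_iff₀ (by positivity)] at h1
    linarith

theorem shell_open (k : ℕ) : IsOpen (shell d k) := by
  have h1 : ContinuousOn (lg : X d → ℝ) {x | x ≠ 0} := by
    unfold lg Real.logb
    refine ContinuousOn.mul continuousOn_const (ContinuousOn.div_const ?_ _)
    exact ContinuousOn.log continuous_norm.continuousOn fun x hx => norm_ne_zero_iff.2 hx
  have h2 : IsOpen {x : X d | x ≠ 0} := isOpen_ne
  have h3 := h1.isOpen_inter_preimage h2 (isOpen_Ioo (a := 1 / ((k:ℝ) + 1)) (b := 1 / (k:ℝ)))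
  exact h3

theorem shell_nonempty (hd : d ≠ 0) {k : ℕ} (hk : 1 ≤ k) : (shell d k).Nonempty := by
  have hk' : (1:ℝ) ≤ k := by exact_mod_cast hk
  have hk0 : (0:ℝ) < k := by linarith
  set z : ℝ := (1 / ((k:ℝ) + 1) + 1 / (k:ℝ)) / 2 with hz
  have hlt : 1 / ((k:ℝ) + 1) < 1 / (k:ℝ) := by
    apply one_div_lt_one_div_of_lt hk0
    linarith
  have hd0 : (d:ℝ) ≠ 0 := by exact_mod_cast hd
  have : Nonempty (Fin d) := ⟨⟨0, Nat.pos_of_ne_zero hd⟩⟩
  obtain ⟨i⟩ := this
  refine ⟨Pi.single i ((2:ℝ) ^ (z / d)), ?_, ?_⟩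
  · intro h
    have h1 := congrArg norm h
    rw [Pi.norm_single, norm_zero] at h1
    have h2 : (0:ℝ) < (2:ℝ) ^ (z / d) := by positivity
    rw [Real.norm_of_nonneg h2.le] at h1
    linarith
  · have h1 : lg (Pi.single i ((2:ℝ) ^ (z / d)) : X d) = z := by
      unfold lg
      have h2 : (0:ℝ) < (2:ℝ) ^ (z / d) := by positivity
      rw [Pi.norm_single, Real.norm_of_nonneg h2.le,
        Real.logb_rpow (by norm_num) (by norm_num)]
      field_simp
    rw [h1]
    constructor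
    · linarith
    · linarith

theorem shell_bounded {k : ℕ} (hd : d ≠ 0) (hk : 1 ≤ k) : shell d k ⊆ Metric.ball 0 2 := by
  rintro x ⟨hx, _, h2⟩
  have hk' : (1:ℝ) ≤ k := by exact_mod_cast hk
  have hk0 : (0:ℝ) < k := by linarith
  have hx' : 0 < ‖x‖ := norm_pos_iff.2 hx
  have h4 : 1 / (k:ℝ) ≤ 1 := by
    rw [div_le_one hk0]
    exact hk'
  have hd1 : (1:ℝ) ≤ d := by exact_mod_cast Nat.pos_of_ne_zero hd
  have h5 : Real.logb 2 ‖x‖ < 1 := by
    unfold lg at h2
    by_contra hcon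
    push Not at hcon
    nlinarith
  rw [mem_ball_zero_iff]
  rw [Real.logb_lt_iff_lt_rpow (by norm_num) hx', Real.rpow_one] at h5
  exact h5

theorem Wpow_lower (hd : d ≠ 0) {k : ℕ} (hk : 1 ≤ k) (lam : ℝ) (n : ℕ) :
    ((|lam| / ((k + 1 : ℕ) : ℝ) + 1)⁻¹) ^ n ≤ ‖Wop d lam ^ n‖ := by
  have hm : MeasurableSet (shell d k) := (shell_open k).measurableSet
  have hfin : volume (shell d k) ≠ ⊤ :=
    ((measure_mono (shell_bounded hd hk)).trans_lt measure_ball_lt_top).ne
  have hpos : 0 < volume (shell d k) := (shell_open k).measure_pos _ (shell_nonempty hd hk)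
  set f : L d 1 := indicatorConstLp 1 hm hfin (1:ℝ) with hf
  have hnorm : ‖f‖ = (volume (shell d k)).toReal := by
    rw [hf, norm_indicatorConstLp one_ne_zero ENNReal.one_ne_top]
    simp [Measure.real]
  have hLam : Lam d (k + 1) f = (volume (shell d k)).toReal := by
    unfold Lam
    have h1 : (fun x => mulOp 1 (blk d (k + 1)) f x) =ᵐ[volume]
        (shell d k).indicator (fun _ => (1:ℝ)) := by
      filter_upwards [mulOp_coe 1 (blk d (k + 1)) f, indicatorConstLp_coeFn (hs := hm)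
        (hμs := hfin) (c := (1:ℝ)) (p := 1)] with x h1 h2
      rw [h1, hf, h2]
      by_cases hx : x ∈ shell d k
      · rw [indicator_of_mem hx]
        show (if rate x = k + 1 then (1 : ℝ) else 0) * 1 = 1
        rw [if_pos (shell_rate hk hx), one_mul]
      · rw [indicator_of_notMem hx, mul_zero]
    rw [integral_congr_ae h1, integral_indicator hm]
    simp [Measure.real]
  have hVpos : 0 < (volume (shell d k)).toReal := ENNReal.toReal_pos hpos.ne' hfin
  have h1 := Lam_Wpow hd (k + 1) lam n f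
  have h2 := Lam_abs_le (k + 1) ((Wop d lam ^ n) f)
  have h3 : ‖(Wop d lam ^ n) f‖ ≤ ‖Wop d lam ^ n‖ * ‖f‖ := ContinuousLinearMap.le_opNorm _ _
  rw [h1, hLam] at h2
  rw [hnorm] at h3
  rw [abs_of_nonneg (by positivity)] at h2
  exact le_of_mul_le_mul_right (h2.trans h3) hVpos

theorem Wpow_norm (hd : d ≠ 0) (lam : ℝ) {n : ℕ} (hn : n ≠ 0) : ‖Wop d lam ^ n‖ = 1 := by
  apply le_antisymm
  · refine (norm_pow_le' _ (Nat.pos_of_ne_zero hn)).trans ?_
    exact pow_le_one₀ (norm_nonneg _) (Wop_norm_le hd lam)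
  · have h1 : Tendsto (fun k : ℕ => ((|lam| / ((k + 1 : ℕ) : ℝ) + 1)⁻¹) ^ n) atTop (𝓝 (((0 + 1)⁻¹) ^ n)) := by
      have h2 : Tendsto (fun k : ℕ => |lam| / ((k + 1 : ℕ) : ℝ)) atTop (𝓝 0) := by
        have := tendsto_const_div_atTop_nhds_zero_nat |lam|
        exact this.comp (tendsto_add_atTop_nat 1)
      exact ((h2.add_const 1).inv₀ (by norm_num)).pow n
    rw [zero_add, inv_one, one_pow] at h1
    refine le_of_tendsto h1 ?_
    filter_upwards [eventually_ge_atTop 1] with k hk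
    exact Wpow_lower hd hk lam n

end Pool.Agent.R243.FB
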