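import Mathlib
import Pool.Agent.R243.FB.Res

set_option autoImplicit false

namespace Pool.Agent.R243.FB

open Filter Topology MeasureTheory Set
open scoped ENNReal NNReal

variable {d : ℕ}

/-- `sqrt m_n(t)` -/
noncomputable def sm (d : ℕ) (n : ℕ) (t : ℝ≥0) : Mlt d where
  f := fun x => Real.sqrt ((mt d n t).f x)
  C := 1
  meas := (mt d n t).meas.sqrt
  nonneg := zero_le_one
  bd := fun x => by
    rw [abs_of_nonneg (Real.sqrt_nonneg _)]
    apply Real.sqrt_le_one.2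
    have h1 := (mt d n t).bd x
    have h2 : (mt d n t).C ≤ 1 := pow_le_one₀ (by norm_num) (by norm_num)
    exact (le_abs_self _).trans (h1.trans h2)

theorem sm_dil (hd : d ≠ 0) (n : ℕ) (t : ℝ≥0) (x : X d) : (sm d n t).f (gam d • x) = (sm d n t).f x := by
  show Real.sqrt ((mt d n t).f (gam d • x)) = _
  rw [mt_dil hd]
  rfl

theorem sq_int (φ : L d 2) : Integrable (fun x : X d => φ x ^ 2) volume :=
  (Lp.memLp φ).integrable_sq

theorem inner_self_eq (φ : L d 2) : inner ℝ φ φ = ∫ x : X d, φ x ^ 2 := by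
  rw [L2.inner_def]
  refine integral_congr_ae (Eventually.of_forall fun x => ?_)
  beta_reduce
  rw [rin]
  ring

theorem mul_sq_int (m : Mlt d) (φ : L d 2) : Integrable (fun x : X d => m.f x * φ x ^ 2) volume := by
  refine Integrable.bdd_mul (c := m.C) (sq_int φ) m.meas.aestronglyMeasurable ?_
  exact Eventually.of_forall fun x => by rw [Real.norm_eq_abs]; exact m.bd x

theorem Tn_inner_le (hd : d ≠ 0) (n : ℕ) (t : ℝ≥0) (φ : L d 2) :
    inner ℝ (Tn d 2 n t φ) φ ≤ rho ^ n * ∫ x : X d, (mt d n t).f x * φ x ^ 2 := by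
  set ψ := mulOp 2 (sm d n t) φ with hψ
  have h1 : Tn d 2 n t φ = mulOp 2 (sm d n t) (((P d 2) ^ n) ψ) := by
    have e1 : ((P d 2) ^ n) ψ = mulOp 2 (sm d n t) (((P d 2) ^ n) φ) :=
      congrArg (fun A : L d 2 →L[ℝ] L d 2 => A φ) (Ppow_mulOp 2 (sm_dil hd n t) n)
    rw [e1, Tn_app]
    ext1
    set k := ((P d 2) ^ n) φ
    filter_upwards [mulOp_coe 2 (mt d n t) k, mulOp_coe 2 (sm d n t) (mulOp 2 (sm d n t) k),
      mulOp_coe 2 (sm d n t) k] with x e1 e2 e3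
    rw [e1, e2, e3, ← mul_assoc]
    congr 1
    exact (Real.mul_self_sqrt (mt_nonneg n t x)).symm
  have h2 : inner ℝ (Tn d 2 n t φ) φ = inner ℝ (((P d 2) ^ n) ψ) ψ := by
    rw [h1, mulOp_symm]
  have h3 : ‖((P d 2) ^ n) ψ‖ ≤ rho ^ n * ‖ψ‖ := by
    refine (ContinuousLinearMap.le_opNorm _ _).trans ?_
    refine mul_le_mul_of_nonneg_right ?_ (norm_nonneg _)
    rcases Nat.eq_zero_or_pos n with h | h
    · subst h
      rw [pow_zero, pow_zero]
      exact ContinuousLinearMap.norm_id_le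
    · refine (norm_pow_le' _ h).trans ?_
      exact pow_le_pow_left₀ (norm_nonneg _) (P_norm_two hd) n
  have h4 : ‖ψ‖ * ‖ψ‖ = ∫ x : X d, (mt d n t).f x * φ x ^ 2 := by
    rw [← real_inner_self_eq_norm_mul_norm, inner_self_eq]
    refine integral_congr_ae ?_
    filter_upwards [mulOp_coe 2 (sm d n t) φ] with x hx
    rw [hψ, hx, mul_pow]
    congr 1
    exact Real.sq_sqrt (mt_nonneg n t x)
  rw [h2, ← h4]
  calc inner ℝ (((P d 2) ^ n) ψ) ψ ≤ ‖((P d 2) ^ n) ψ‖ * ‖ψ‖ := real_inner_le_norm _ _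
    _ ≤ rho ^ n * ‖ψ‖ * ‖ψ‖ := mul_le_mul_of_nonneg_right h3 (norm_nonneg _)
    _ = _ := mul_assoc _ _ _

/-- `e^{-θ t v}` -/
noncomputable def em (d : ℕ) (t : ℝ≥0) : Mlt d where
  f := fun x => Real.exp (-(2 - rho) * (t * rate x))
  C := 1
  meas := Real.measurable_exp.comp ((rate_meas.const_mul _).const_mul _)
  nonneg := zero_le_one
  bd := fun x => by
    rw [abs_of_pos (Real.exp_pos _), Real.exp_le_one_iff]
    have h0 : (0:ℝ) ≤ t * rate x := by positivity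
    have h1 := rho_lt_one
    nlinarith

theorem sum_rho_le (N : ℕ) (t : ℝ≥0) (x : X d) :
    ∑ n ∈ Finset.range N, rho ^ n * (mt d n t).f x ≤ (em d t).f x := by
  show ∑ n ∈ Finset.range N, rho ^ n * (Real.exp (-2 * (t * rate x)) * ((t * rate x) ^ n / n.factorial)) ≤
    Real.exp (-(2 - rho) * (t * rate x))
  have h0 : (0:ℝ) ≤ t * rate x := by positivity
  generalize (t:ℝ) * rate x = s at *
  have h1 : ∑ n ∈ Finset.range N, rho ^ n * (Real.exp (-2 * s) * (s ^ n / n.factorial)) =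
      Real.exp (-2 * s) * ∑ n ∈ Finset.range N, ((rho * s) ^ n / n.factorial) := by
    rw [Finset.mul_sum]
    refine Finset.sum_congr rfl fun n _ => ?_
    rw [mul_pow]
    ring
  have h2 := Real.sum_le_exp_of_nonneg (mul_nonneg rho_nonneg h0) N
  rw [h1]
  calc Real.exp (-2 * s) * ∑ n ∈ Finset.range N, ((rho * s) ^ n / n.factorial) ≤
        Real.exp (-2 * s) * Real.exp (rho * s) := by
        have := Real.exp_pos (-2 * s)
        gcongr
    _ = _ := by
        rw [← Real.exp_add]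
        ring_nf

theorem Ut_inner_le (hd : d ≠ 0) (t : ℝ≥0) (φ : L d 2) :
    inner ℝ (Ut d 2 t φ) φ ≤ ∫ x : X d, (em d t).f x * φ x ^ 2 := by
  have h1 : HasSum (fun n => inner ℝ φ (Tn d 2 n t φ)) (inner ℝ φ (Ut d 2 t φ)) :=
    (innerSL ℝ φ).hasSum (Ut_hasSum hd 2 t φ)
  rw [real_inner_comm]
  refine le_of_tendsto h1.tendsto_sum_nat (Eventually.of_forall fun N => ?_)
  calc ∑ n ∈ Finset.range N, inner ℝ φ (Tn d 2 n t φ) ≤
        ∑ n ∈ Finset.range N, rho ^ n * ∫ x : X d, (mt d n t).f x * φ x ^ 2 := by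
        refine Finset.sum_le_sum fun n _ => ?_
        rw [real_inner_comm]
        exact Tn_inner_le hd n t φ
    _ = ∑ n ∈ Finset.range N, ∫ x : X d, rho ^ n * ((mt d n t).f x * φ x ^ 2) :=
        Finset.sum_congr rfl fun n _ => (integral_const_mul _ _).symm
    _ = ∫ x : X d, ∑ n ∈ Finset.range N, rho ^ n * ((mt d n t).f x * φ x ^ 2) := by
        rw [integral_finsetSum _ fun n _ => (mul_sq_int (mt d n t) φ).const_mul _]
    _ ≤ ∫ x : X d, (em d t).f x * φ x ^ 2 := by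
        refine integral_mono (integrable_finsetSum _ fun n _ => (mul_sq_int (mt d n t) φ).const_mul _)
          (mul_sq_int (em d t) φ) fun x => ?_
        beta_reduce
        have h2 : ∑ n ∈ Finset.range N, rho ^ n * ((mt d n t).f x * φ x ^ 2) =
            (∑ n ∈ Finset.range N, rho ^ n * (mt d n t).f x) * φ x ^ 2 := by
          rw [Finset.sum_mul]
          exact Finset.sum_congr rfl fun n _ => by ring
        rw [h2]
        exact mul_le_mul_of_nonneg_right (sum_rho_le N t x) (sq_nonneg _)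

/-- the difference quotients of the form -/
theorem quot_ge (hd : d ≠ 0) {t : ℝ≥0} (ht : 0 < t) (φ : L d 2) :
    ∫⁻ x : X d, ENNReal.ofReal ((t:ℝ)⁻¹ * (1 - (em d t).f x) * φ x ^ 2) ≤
      ENNReal.ofReal ((t:ℝ)⁻¹ * (inner ℝ φ φ - inner ℝ (Ut d 2 t φ) φ)) := by
  have ht' : (0:ℝ) < t := ht
  have h1 := Ut_inner_le hd t φ
  have h2 : ∫ x : X d, (t:ℝ)⁻¹ * (1 - (em d t).f x) * φ x ^ 2 =
      (t:ℝ)⁻¹ * (inner ℝ φ φ - ∫ x : X d, (em d t).f x * φ x ^ 2) := by
    rw [inner_self_eq, ← integral_sub (sq_int φ) (mul_sq_int (em d t) φ), ← integral_const_mul]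
    refine integral_congr_ae (Eventually.of_forall fun x => ?_)
    beta_reduce
    ring
  have h3 : Integrable (fun x : X d => (t:ℝ)⁻¹ * (1 - (em d t).f x) * φ x ^ 2) volume := by
    have h4 := ((sq_int φ).sub (mul_sq_int (em d t) φ)).const_mul (t:ℝ)⁻¹
    refine h4.congr (Eventually.of_forall fun x => ?_)
    simp only [Pi.sub_apply]
    ring
  have hnn : ∀ x : X d, 0 ≤ (t:ℝ)⁻¹ * (1 - (em d t).f x) * φ x ^ 2 := by
    intro x
    have h4 : (em d t).f x ≤ 1 := (le_abs_self _).trans ((em d t).bd x)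
    have h5 : 0 ≤ 1 - (em d t).f x := by linarith
    positivity
  rw [← ofReal_integral_eq_lintegral_ofReal h3 (Eventually.of_forall hnn), h2]
  apply ENNReal.ofReal_le_ofReal
  gcongr

theorem em_lim (x : X d) (a : ℝ) : Tendsto (fun j : ℕ => (((1 / ((j:ℝ≥0) + 1) : ℝ≥0)):ℝ)⁻¹ *
    (1 - (em d (1 / ((j:ℝ≥0) + 1))).f x) * a) atTop (𝓝 ((2 - rho) * rate x * a)) := by
  have h1 : HasDerivAt (fun s : ℝ => Real.exp (-(2 - rho) * (s * rate x))) (-((2 - rho) * rate x)) 0 := by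
    have h2 : HasDerivAt (fun s : ℝ => Real.exp (-(2 - rho) * (s * rate x)))
        (Real.exp (-(2 - rho) * ((0:ℝ) * rate x)) * (-(2 - rho) * (1 * rate x))) 0 :=
      (((hasDerivAt_id (0:ℝ)).mul_const (rate x : ℝ)).const_mul (-(2 - rho))).exp
    refine h2.congr_deriv ?_
    rw [zero_mul, mul_zero, Real.exp_zero]
    ring
  have h2 := h1.tendsto_slope_zero
  have h3 : Tendsto (fun j : ℕ => ((1 / ((j:ℝ≥0) + 1) : ℝ≥0):ℝ)) atTop (𝓝[≠] 0) := by
    refine tendsto_nhdsWithin_iff.2 ⟨?_, ?_⟩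
    · have h4 := tendsto_one_div_add_atTop_nhds_zero_nat (𝕜 := ℝ)
      refine h4.congr fun j => ?_
      push_cast
      rfl
    · refine Eventually.of_forall fun j => ?_
      have : (0:ℝ) < ((1 / ((j:ℝ≥0) + 1) : ℝ≥0):ℝ) := by
        push_cast
        positivity
      exact this.ne'
  have h4 := ((h2.comp h3).neg).mul_const a
  rw [neg_neg] at h4
  refine h4.congr fun j => ?_
  simp only [Function.comp_apply, zero_add, smul_eq_mul, zero_mul, mul_zero, Real.exp_zero]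
  show _ = (((1 / ((j:ℝ≥0) + 1) : ℝ≥0)):ℝ)⁻¹ *
    (1 - Real.exp (-(2 - rho) * ((((1 / ((j:ℝ≥0) + 1) : ℝ≥0)):ℝ) * rate x))) * a
  ring

theorem form_bound (hd : d ≠ 0) (φ : L d 2) :
    ∫⁻ x : X d, ENNReal.ofReal (rate x) * ‖φ x‖ₑ ^ 2 ≤ ENNReal.ofReal (1 / (2 - rho)) *
      ⨆ t : ℝ≥0, ⨆ _ : 0 < t, ENNReal.ofReal ((t:ℝ)⁻¹ * (inner ℝ φ φ - inner ℝ (Ut d 2 t φ) φ)) := by
  have hφm : Measurable (fun x : X d => φ x) := (Lp.stronglyMeasurable φ).measurable
  have hθ : 0 < 2 - rho := by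
    have := rho_lt_one
    linarith
  have h1 : ∫⁻ x : X d, ENNReal.ofReal ((2 - rho) * rate x * φ x ^ 2) ≤
      ⨆ t : ℝ≥0, ⨆ _ : 0 < t, ENNReal.ofReal ((t:ℝ)⁻¹ * (inner ℝ φ φ - inner ℝ (Ut d 2 t φ) φ)) := by
    have h2 : ∀ x : X d, ENNReal.ofReal ((2 - rho) * rate x * φ x ^ 2) =
        liminf (fun j : ℕ => ENNReal.ofReal ((((1 / ((j:ℝ≥0) + 1) : ℝ≥0)):ℝ)⁻¹ *
          (1 - (em d (1 / ((j:ℝ≥0) + 1))).f x) * φ x ^ 2)) atTop := by
      intro x
      exact ((ENNReal.continuous_ofReal.tendsto _).comp (em_lim x (φ x ^ 2))).liminf_eq.symm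
    calc ∫⁻ x : X d, ENNReal.ofReal ((2 - rho) * rate x * φ x ^ 2) =
          ∫⁻ x : X d, liminf (fun j : ℕ => ENNReal.ofReal ((((1 / ((j:ℝ≥0) + 1) : ℝ≥0)):ℝ)⁻¹ *
          (1 - (em d (1 / ((j:ℝ≥0) + 1))).f x) * φ x ^ 2)) atTop := lintegral_congr h2
      _ ≤ liminf (fun j : ℕ => ∫⁻ x : X d, ENNReal.ofReal ((((1 / ((j:ℝ≥0) + 1) : ℝ≥0)):ℝ)⁻¹ *
          (1 - (em d (1 / ((j:ℝ≥0) + 1))).f x) * φ x ^ 2)) atTop := by
          refine lintegral_liminf_le fun j => ?_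
          exact (((((em d _).meas).const_sub 1).const_mul _).mul (hφm.pow_const 2)).ennreal_ofReal
      _ ≤ _ := by
          refine liminf_le_of_frequently_le' (Frequently.of_forall fun j => ?_)
          have hpos : (0:ℝ≥0) < 1 / ((j:ℝ≥0) + 1) := by positivity
          refine (quot_ge hd hpos φ).trans ?_
          exact le_iSup₂ (f := fun (t : ℝ≥0) (_ : 0 < t) =>
            ENNReal.ofReal ((t:ℝ)⁻¹ * (inner ℝ φ φ - inner ℝ (Ut d 2 t φ) φ)))
            (1 / ((j:ℝ≥0) + 1)) hpos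
  have h3 : ∫⁻ x : X d, ENNReal.ofReal (rate x) * ‖φ x‖ₑ ^ 2 =
      ENNReal.ofReal (1 / (2 - rho)) * ∫⁻ x : X d, ENNReal.ofReal ((2 - rho) * rate x * φ x ^ 2) := by
    rw [← lintegral_const_mul' _ _ ENNReal.ofReal_ne_top]
    refine lintegral_congr fun x => ?_
    rw [← ENNReal.ofReal_mul (by positivity), Real.enorm_eq_ofReal_abs,
      ← ENNReal.ofReal_pow (abs_nonneg _), ← ENNReal.ofReal_mul (by positivity), sq_abs]
    congr 1
    field_simp
  rw [h3]
  exact mul_le_mul' le_rfl h1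

end Pool.Agent.R243.FB
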