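import Mathlib
import Pool.Agent.R243.FB.Defs
import Pool.Agent.R243.FB.Form

set_option autoImplicit false

namespace Pool.Agent.R243.FB

open Filter Topology MeasureTheory Set
open scoped ENNReal NNReal

variable {d : ℕ}

theorem inner_eq (f g : L d 2) : inner ℝ f g = ∫ x : X d, f x * g x := by
  rw [L2.inner_def]
  refine integral_congr_ae (Eventually.of_forall fun x => ?_)
  beta_reduce
  rw [rin]

open Classical in
/-- the semigroup on functions -/
noncomputable def Uf (d : ℕ) (t : ℝ≥0) (f : X d → ℝ) : X d → ℝ :=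
  if h : ∃ p : ℝ≥0∞, 1 ≤ p ∧ MemLp f p volume then
    haveI : Fact (1 ≤ h.choose) := ⟨h.choose_spec.1⟩
    fun x => Ut d h.choose t (h.choose_spec.2.toLp f) x
  else fun _ => 0

theorem Uf_eq (hd : d ≠ 0) {p : ℝ≥0∞} [hp : Fact (1 ≤ p)] {f : X d → ℝ} (hf : MemLp f p volume)
    (t : ℝ≥0) : Uf d t f =ᵐ[volume] Ut d p t (hf.toLp f) := by
  have h : ∃ p : ℝ≥0∞, 1 ≤ p ∧ MemLp f p volume := ⟨p, hp.out, hf⟩
  unfold Uf
  rw [dif_pos h]
  have : Fact (1 ≤ h.choose) := ⟨h.choose_spec.1⟩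
  refine Ut_compat hd h.choose p t _ _ ?_
  exact (h.choose_spec.2.coeFn_toLp).trans hf.coeFn_toLp.symm

theorem Ut_ext (hd : d ≠ 0) {p : ℝ≥0∞} [hp : Fact (1 ≤ p)] {f g : L d p} (h : f =ᵐ[volume] g)
    (t : ℝ≥0) : Ut d p t f = Ut d p t g := by
  have : f = g := Lp.ext h
  rw [this]

theorem Uf_congr (hd : d ≠ 0) (t : ℝ≥0) {f g : X d → ℝ} (h : f =ᵐ[volume] g) :
    Uf d t f =ᵐ[volume] Uf d t g := by
  by_cases hf : ∃ p : ℝ≥0∞, 1 ≤ p ∧ MemLp f p volume
  · obtain ⟨p, hp, hf⟩ := hf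
    have : Fact (1 ≤ p) := ⟨hp⟩
    have hg : MemLp g p volume := (memLp_congr_ae h).1 hf
    refine (Uf_eq hd hf t).trans (EventuallyEq.trans ?_ (Uf_eq hd hg t).symm)
    rw [Ut_ext hd ((hf.coeFn_toLp.trans h).trans hg.coeFn_toLp.symm) t]
  · have hg : ¬ ∃ p : ℝ≥0∞, 1 ≤ p ∧ MemLp g p volume := by
      rintro ⟨p, hp, hg⟩
      exact hf ⟨p, hp, (memLp_congr_ae h).2 hg⟩
    unfold Uf
    rw [dif_neg hf, dif_neg hg]

theorem Uf_mem (hd : d ≠ 0) {p : ℝ≥0∞} [hp : Fact (1 ≤ p)] {f : X d → ℝ} (hf : MemLp f p volume)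
    (t : ℝ≥0) : MemLp (Uf d t f) p volume :=
  (memLp_congr_ae (Uf_eq hd hf t)).2 (Lp.memLp _)

theorem toLp_Uf (hd : d ≠ 0) {p : ℝ≥0∞} [hp : Fact (1 ≤ p)] {f : X d → ℝ} (hf : MemLp f p volume)
    (t : ℝ≥0) : (Uf_mem hd hf t).toLp _ = Ut d p t (hf.toLp f) :=
  Lp.ext ((Uf_mem hd hf t).coeFn_toLp.trans (Uf_eq hd hf t))

theorem zero_L (p : ℝ≥0∞) [Fact (1 ≤ p)] (f : L d p) : Ut d p 0 f = f := by
  rw [Ut_zero]
  rfl

theorem add_L (hd : d ≠ 0) (p : ℝ≥0∞) [Fact (1 ≤ p)] (s t : ℝ≥0) (f : L d p) :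
    Ut d p (s + t) f = Ut d p s (Ut d p t f) := by
  rw [Ut_add hd]
  rfl

theorem contr_one_L (hd : d ≠ 0) (t : ℝ≥0) (f : L d 1) : ‖Ut d 1 t f‖ ≤ ‖f‖ := by
  have h := ContinuousLinearMap.le_of_opNorm_le _ (Ut_contr_one hd t) f
  rwa [one_mul] at h

theorem contr_top_L (hd : d ≠ 0) (t : ℝ≥0) (f : L d ⊤) : ‖Ut d ⊤ t f‖ ≤ ‖f‖ := by
  have h := ContinuousLinearMap.le_of_opNorm_le _ (Ut_contr_top hd t) f
  rwa [one_mul] at h

theorem eLpNorm_le_of {p : ℝ≥0∞} [Fact (1 ≤ p)] {f g : L d p} (h : ‖f‖ ≤ ‖g‖) :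
    eLpNorm f p volume ≤ eLpNorm g p volume := by
  rw [Lp.norm_def, Lp.norm_def] at h
  exact (ENNReal.toReal_le_toReal (Lp.eLpNorm_ne_top f) (Lp.eLpNorm_ne_top g)).1 h

theorem Uf_contr (hd : d ≠ 0) {p : ℝ≥0∞} [hp : Fact (1 ≤ p)] {f : X d → ℝ} (hf : MemLp f p volume)
    (t : ℝ≥0) (h : ‖Ut d p t (hf.toLp f)‖ ≤ ‖hf.toLp f‖) :
    eLpNorm (Uf d t f) p volume ≤ eLpNorm f p volume := by
  rw [eLpNorm_congr_ae (Uf_eq hd hf t)]
  refine (eLpNorm_le_of h).trans (le_of_eq ?_)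
  exact eLpNorm_congr_ae hf.coeFn_toLp

/-- the semigroup -/
noncomputable def Sg (hd : d ≠ 0) : SymSubMarkov d where
  U := Uf d
  congr := fun t f g h => Uf_congr hd t h
  mem := fun p hp t f hf => by
    have : Fact (1 ≤ p) := ⟨hp⟩
    exact Uf_mem hd hf t
  add := fun p hp t f g hf hg => by
    have : Fact (1 ≤ p) := ⟨hp⟩
    have hf' : MemLp f p volume := hf
    have hg' : MemLp g p volume := hg
    have h1 := Uf_eq hd (hf'.add hg') t
    have h2 : (hf'.add hg').toLp (f + g) = hf'.toLp f + hg'.toLp g := rfl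
    rw [h2, map_add] at h1
    filter_upwards [h1, Lp.coeFn_add (Ut d p t (hf'.toLp f)) (Ut d p t (hg'.toLp g)),
      Uf_eq hd hf' t, Uf_eq hd hg' t] with x e1 e2 e3 e4
    show Uf d t (f + g) x = _
    rw [e1, e2, Pi.add_apply, e3, e4]
  smul := fun p hp t c f hf => by
    have : Fact (1 ≤ p) := ⟨hp⟩
    have hf' : MemLp f p volume := hf
    have h1 := Uf_eq hd (hf'.const_smul c) t
    have h2 : (hf'.const_smul c).toLp (c • f) = c • hf'.toLp f := rfl
    rw [h2, map_smul] at h1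
    filter_upwards [h1, Lp.coeFn_smul c (Ut d p t (hf'.toLp f)), Uf_eq hd hf' t] with x e1 e2 e3
    show Uf d t (c • f) x = _
    rw [e1, e2, Pi.smul_apply, e3, smul_eq_mul]
  zero := fun p hp f hf => by
    have : Fact (1 ≤ p) := ⟨hp⟩
    have hf' : MemLp f p volume := hf
    have h1 := Uf_eq hd hf' 0
    rw [zero_L] at h1
    exact h1.trans hf'.coeFn_toLp
  semigroup := fun p hp s t f hf => by
    have : Fact (1 ≤ p) := ⟨hp⟩
    have hf' : MemLp f p volume := hf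
    have h1 := Uf_eq hd hf' (s + t)
    rw [add_L hd] at h1
    have h2 := Uf_eq hd (Uf_mem hd hf' t) s
    rw [toLp_Uf hd hf' t] at h2
    exact h1.trans h2.symm
  nonneg := fun p hp t f hf h => by
    have : Fact (1 ≤ p) := ⟨hp⟩
    have hf' : MemLp f p volume := hf
    have h1 : (0 : L d p) ≤ hf'.toLp f := by
      rw [← Lp.coeFn_nonneg]
      have h0 : ∀ᵐ x : X d, 0 ≤ f x := h
      filter_upwards [h0, hf'.coeFn_toLp] with x e1 e2
      rw [e2]
      exact e1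
    have h2 := Ut_nonneg hd p t h1
    rw [← Lp.coeFn_nonneg] at h2
    have h3 : ∀ᵐ x : X d, 0 ≤ Uf d t f x := by
      filter_upwards [h2, Uf_eq hd hf' t] with x e1 e2
      rw [e2]
      exact e1
    exact h3
  contr_one := fun t f hf => by
    have hf' : MemLp f 1 volume := hf
    exact Uf_contr hd hf' t (contr_one_L hd t _)
  contr_top := fun t f hf => by
    have hf' : MemLp f ⊤ volume := hf
    exact Uf_contr hd hf' t (contr_top_L hd t _)
  cont := fun p hp hpt f hf t₀ => by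
    have : Fact (1 ≤ p) := ⟨hp⟩
    have hf' : MemLp f p volume := hf
    have h1 := (Ut_cont hd p hpt (hf'.toLp f)).tendsto t₀
    have h2 := (Lp.tendsto_Lp_iff_tendsto_eLpNorm' _ _).1 h1
    refine h2.congr fun t => ?_
    refine eLpNorm_congr_ae ?_
    filter_upwards [Uf_eq hd hf' t, Uf_eq hd hf' t₀] with x e1 e2
    rw [Pi.sub_apply, e1, e2]
  symm := fun t f g hf hg => by
    have hf' : MemLp f 2 volume := hf
    have hg' : MemLp g 2 volume := hg
    have h1 := Ut_symm hd t (hf'.toLp f) (hg'.toLp g)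
    rw [inner_eq, inner_eq] at h1
    have h2 : ∫ x : X d, Uf d t f x * g x = ∫ x : X d, Ut d 2 t (hf'.toLp f) x * hg'.toLp g x := by
      refine integral_congr_ae ?_
      filter_upwards [Uf_eq hd hf' t, hg'.coeFn_toLp] with x e1 e2
      rw [e1, e2]
    have h3 : ∫ x : X d, f x * Uf d t g x = ∫ x : X d, hf'.toLp f x * Ut d 2 t (hg'.toLp g) x := by
      refine integral_congr_ae ?_
      filter_upwards [Uf_eq hd hg' t, hf'.coeFn_toLp] with x e1 e2
      rw [e1, e2]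
    exact h2.trans (h1.trans h3.symm)

/-- conversion of the generator relation -/
theorem isGen_iff (hd : d ≠ 0) {g h : X d → ℝ} (hg : MemLp g 1 volume) (hh : MemLp h 1 volume) :
    IsGen (Sg hd) g h ↔ Tendsto (fun t : ℝ≥0 => (t:ℝ)⁻¹ • (Ut d 1 t (hg.toLp g) - hg.toLp g)) (𝓝[>] 0)
      (𝓝 (hh.toLp h)) := by
  have key : ∀ t : ℝ≥0, eLpNorm (fun x => (t:ℝ)⁻¹ * (Uf d t g x - g x) - h x) 1 volume =
      eLpNorm (⇑((t:ℝ)⁻¹ • (Ut d 1 t (hg.toLp g) - hg.toLp g)) - ⇑(hh.toLp h)) 1 volume := by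
    intro t
    refine eLpNorm_congr_ae ?_
    filter_upwards [Lp.coeFn_smul (t:ℝ)⁻¹ (Ut d 1 t (hg.toLp g) - hg.toLp g),
      Lp.coeFn_sub (Ut d 1 t (hg.toLp g)) (hg.toLp g), Uf_eq hd hg t, hg.coeFn_toLp, hh.coeFn_toLp]
      with x e1 e2 e3 e4 e5
    rw [Pi.sub_apply, e1, Pi.smul_apply, e2, Pi.sub_apply, e3, e4, e5, smul_eq_mul]
  rw [Lp.tendsto_Lp_iff_tendsto_eLpNorm']
  constructor
  · rintro ⟨_, _, h1⟩
    exact Tendsto.congr key h1
  · intro h1
    exact ⟨hg, hh, Tendsto.congr (fun t => (key t).symm) h1⟩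

theorem tbounded_S (hd : d ≠ 0) : TBounded (Sg hd) (fun x => (rate x : ℝ)) := by
  intro g h hgen
  have hg : MemLp g 1 volume := hgen.1
  have hh : MemLp h 1 volume := hgen.2.1
  have h1 := (isGen_iff hd hg hh).1 hgen
  have h2 := tbounded hd h1
  have h3 : Integrable (fun x : X d => (rate x : ℝ) * g x) volume := by
    refine h2.congr ?_
    filter_upwards [hg.coeFn_toLp] with x e1
    rw [e1]
  exact memLp_one_iff_integrable.2 h3

open Classical in
/-- `V (λ - T)^{-1}` on functions -/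
noncomputable def Wf (d : ℕ) (lam : ℝ) (f : X d → ℝ) : X d → ℝ :=
  if h : MemLp f 1 volume then fun x => Wop d lam (h.toLp f) x else fun _ => 0

theorem Wf_eq {lam : ℝ} {f : X d → ℝ} (h : MemLp f 1 volume) :
    Wf d lam f = fun x => Wop d lam (h.toLp f) x := by
  unfold Wf
  rw [dif_pos h]

theorem Wf_mem {lam : ℝ} {f : X d → ℝ} (h : MemLp f 1 volume) : MemLp (Wf d lam f) 1 volume := by
  rw [Wf_eq h]
  exact Lp.memLp _

theorem Wf_toLp {lam : ℝ} {f : X d → ℝ} (h : MemLp f 1 volume) :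
    (Wf_mem (lam := lam) h).toLp _ = Wop d lam (h.toLp f) := by
  refine Lp.ext ((Wf_mem h).coeFn_toLp.trans ?_)
  rw [Wf_eq h]

theorem Wf_iter {lam : ℝ} (n : ℕ) {f : X d → ℝ} (h : MemLp f 1 volume) :
    ∃ h' : MemLp ((Wf d lam)^[n] f) 1 volume, h'.toLp _ = (Wop d lam ^ n) (h.toLp f) := by
  induction n with
  | zero => exact ⟨h, rfl⟩
  | succ n ih =>
    obtain ⟨h', e⟩ := ih
    rw [Function.iterate_succ_apply']
    have e2 := Wf_toLp (lam := lam) h'
    refine ⟨Wf_mem h', ?_⟩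
    rw [e2, e, pow_succ']
    rfl

theorem opN_Wf (hd : d ≠ 0) (lam : ℝ) {n : ℕ} (hn : n ≠ 0) : opN ((Wf d lam)^[n]) = 1 := by
  have hW := Wpow_norm hd lam hn
  apply le_antisymm
  · refine sInf_le ?_
    intro f hf
    have hf' : MemLp f 1 volume := hf
    obtain ⟨h', e⟩ := Wf_iter (lam := lam) n hf'
    have h1 : ‖(Wop d lam ^ n) (hf'.toLp f)‖ ≤ ‖hf'.toLp f‖ := by
      have := ContinuousLinearMap.le_opNorm (Wop d lam ^ n) (hf'.toLp f)
      rwa [hW, one_mul] at this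
    have h2 := eLpNorm_le_of h1
    rw [← e, eLpNorm_congr_ae h'.coeFn_toLp, eLpNorm_congr_ae hf'.coeFn_toLp] at h2
    rw [one_mul]
    exact h2
  · refine le_sInf fun c hc => ?_
    by_cases hct : c = ⊤
    · rw [hct]
      exact le_top
    have h1 : ‖Wop d lam ^ n‖ ≤ c.toReal := by
      refine ContinuousLinearMap.opNorm_le_bound _ ENNReal.toReal_nonneg fun F => ?_
      have hF : MemLp F 1 volume := Lp.memLp F
      obtain ⟨h', e⟩ := Wf_iter (lam := lam) n hF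
      have h2 : eLpNorm ((Wf d lam)^[n] F) 1 volume ≤ c * eLpNorm F 1 volume := hc F hF
      have h3 : hF.toLp F = F := Lp.toLp_coeFn F hF
      rw [h3] at e
      rw [← e, Lp.norm_toLp, Lp.norm_def, ← ENNReal.toReal_mul]
      exact ENNReal.toReal_mono (ENNReal.mul_ne_top hct (Lp.eLpNorm_ne_top F)) h2
    rw [hW] at h1
    have h2 := ENNReal.ofReal_le_ofReal h1
    rwa [ENNReal.ofReal_one, ENNReal.ofReal_toReal hct] at h2

theorem spec_Wf (hd : d ≠ 0) (lam : ℝ) : specRadius (Wf d lam) = 1 := by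
  unfold specRadius
  have h1 : Tendsto (fun n : ℕ => opN ((Wf d lam)^[n]) ^ (1 / (n:ℝ))) atTop (𝓝 1) := by
    refine tendsto_const_nhds.congr' ?_
    filter_upwards [eventually_gt_atTop 0] with n hn
    rw [opN_Wf hd lam hn.ne', ENNReal.one_rpow]
  exact h1.limsup_eq

theorem isVRes_S (hd : d ≠ 0) {lam : ℝ} (hl : 0 < lam) :
    IsVRes (Sg hd) (fun x => (rate x : ℝ)) lam (Wf d lam) := by
  intro f hf
  have hf' : MemLp f 1 volume := hf
  have hg : MemLp (fun x => Rop d lam (hf'.toLp f) x) 1 volume := Lp.memLp _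
  have hh : MemLp (fun x => lam * Rop d lam (hf'.toLp f) x - f x) 1 volume :=
    (hg.const_mul lam).sub hf'
  refine ⟨fun x => Rop d lam (hf'.toLp f) x, ?_, ?_⟩
  · rw [isGen_iff hd hg hh]
    have h1 := Rop_gen hd hl (hf'.toLp f)
    have h2 : hg.toLp _ = Rop d lam (hf'.toLp f) := Lp.toLp_coeFn _ hg
    have h3 : hh.toLp _ = lam • Rop d lam (hf'.toLp f) - hf'.toLp f := by
      ext1
      filter_upwards [hh.coeFn_toLp, Lp.coeFn_sub (lam • Rop d lam (hf'.toLp f)) (hf'.toLp f),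
        Lp.coeFn_smul lam (Rop d lam (hf'.toLp f)), hf'.coeFn_toLp] with x e1 e2 e3 e4
      rw [e1, e2, Pi.sub_apply, e3, e4, Pi.smul_apply, smul_eq_mul]
    rw [h2, h3]
    exact h1
  · have h4 := Wop_coe lam (hf'.toLp f)
    have h5 : ∀ᵐ x : X d, Wf d lam f x = (rate x : ℝ) * Rop d lam (hf'.toLp f) x := by
      rw [Wf_eq hf']
      exact h4
    exact h5

theorem form_S (hd : d ≠ 0) {φ : X d → ℝ} (hφ : MemLp φ 2 volume) :
    ∫⁻ x : X d, ENNReal.ofReal (rate x * φ x ^ 2) ≤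
      ENNReal.ofReal (1 / (2 - rho)) * form (Sg hd) φ := by
  have h1 := form_bound hd (hφ.toLp φ)
  have h2 : ∀ t : ℝ≥0, inner ℝ (hφ.toLp φ) (hφ.toLp φ) - inner ℝ (Ut d 2 t (hφ.toLp φ)) (hφ.toLp φ) =
      ∫ x : X d, (φ x - Uf d t φ x) * φ x := by
    intro t
    rw [inner_eq, inner_eq, ← integral_sub]
    · refine integral_congr_ae ?_
      filter_upwards [hφ.coeFn_toLp, Uf_eq hd hφ t] with x e1 e2
      rw [e1, e2]
      ring
    · exact MemLp.integrable_mul (Lp.memLp (hφ.toLp φ)) (Lp.memLp (hφ.toLp φ))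
    · exact MemLp.integrable_mul (Lp.memLp (Ut d 2 t (hφ.toLp φ))) (Lp.memLp (hφ.toLp φ))
  simp only [h2] at h1
  refine le_trans (le_of_eq ?_) h1
  refine lintegral_congr_ae ?_
  filter_upwards [hφ.coeFn_toLp] with x e1
  rw [e1, ENNReal.ofReal_mul (Nat.cast_nonneg _), Real.enorm_eq_ofReal_abs,
    ← ENNReal.ofReal_pow (abs_nonneg _), sq_abs]

end Pool.Agent.R243.FB
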